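import Mathlib

/-!
# Elementary bounds
-/

set_option autoImplicit false

namespace Pool.Agent.N868.VS

open Finset Filter Topology Metric
open scoped Real

/-- comparison by derivatives -/
lemma le_of_deriv {f g f' g' : ℝ → ℝ} {a b : ℝ} (hf : ∀ x ∈ Set.Icc a b, HasDerivAt f (f' x) x)
    (hg : ∀ x ∈ Set.Icc a b, HasDerivAt g (g' x) x) (h0 : f a ≤ g a)
    (h1 : ∀ x ∈ Set.Ioo a b, f' x ≤ g' x) (hab : a ≤ b) : f b ≤ g b := by
  have h2 : MonotoneOn (fun x => g x - f x) (Set.Icc a b) := by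
    refine monotoneOn_of_deriv_nonneg (convex_Icc a b) ?_ ?_ ?_
    · intro x hx
      exact ((hg x hx).sub (hf x hx)).continuousAt.continuousWithinAt
    · intro x hx
      rw [interior_Icc] at hx
      exact ((hg x (Set.Ioo_subset_Icc_self hx)).sub
        (hf x (Set.Ioo_subset_Icc_self hx))).differentiableAt.differentiableWithinAt
    · intro x hx
      rw [interior_Icc] at hx
      have := ((hg x (Set.Ioo_subset_Icc_self hx)).sub
        (hf x (Set.Ioo_subset_Icc_self hx))).deriv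
      have h3 : deriv (fun x => g x - f x) x = g' x - f' x := this
      rw [h3]
      linarith [h1 x hx]
  have := h2 (Set.left_mem_Icc.2 hab) (Set.right_mem_Icc.2 hab) hab
  simp only at this
  linarith

lemma sin_ge3 {x : ℝ} (hx : 0 ≤ x) : x - x ^ 3 / 6 ≤ Real.sin x := by
  refine le_of_deriv (f := fun t => t - t ^ 3 / 6) (f' := fun t => 1 - t ^ 2 / 2) (g := Real.sin)
    (g' := Real.cos) (a := 0) ?_ (fun x _ => Real.hasDerivAt_sin x) (by simp)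
    (fun x _ => Real.one_sub_sq_div_two_le_cos) hx
  intro x _
  exact ((hasDerivAt_id x).sub (((hasDerivAt_id x).pow 3).div_const 6)).congr_deriv
    (by simp; ring)

lemma cos_le4 {x : ℝ} (hx : 0 ≤ x) : Real.cos x ≤ 1 - x ^ 2 / 2 + x ^ 4 / 24 := by
  refine le_of_deriv (g := fun t => 1 - t ^ 2 / 2 + t ^ 4 / 24) (g' := fun t => -(t - t ^ 3 / 6))
    (f := Real.cos) (f' := fun x => -Real.sin x) (a := 0) (fun x _ => Real.hasDerivAt_cos x) ?_
    (by simp) (fun x h => neg_le_neg (sin_ge3 h.1.le)) hx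
  intro x _
  exact ((((hasDerivAt_const x (1:ℝ)).sub (((hasDerivAt_id x).pow 2).div_const 2))).add
    (((hasDerivAt_id x).pow 4).div_const 24)).congr_deriv (by simp; ring)

lemma sin_le5 {x : ℝ} (hx : 0 ≤ x) : Real.sin x ≤ x - x ^ 3 / 6 + x ^ 5 / 120 := by
  refine le_of_deriv (g := fun t => t - t ^ 3 / 6 + t ^ 5 / 120)
    (g' := fun t => 1 - t ^ 2 / 2 + t ^ 4 / 24) (f := Real.sin)
    (f' := Real.cos) (a := 0) (fun x _ => Real.hasDerivAt_sin x) ?_ (by simp)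
    (fun x h => cos_le4 h.1.le) hx
  intro x _
  exact (((hasDerivAt_id x).sub (((hasDerivAt_id x).pow 3).div_const 6)).add
    (((hasDerivAt_id x).pow 5).div_const 120)).congr_deriv (by simp; ring)

lemma cos_ge6 {x : ℝ} (hx : 0 ≤ x) : 1 - x ^ 2 / 2 + x ^ 4 / 24 - x ^ 6 / 720 ≤ Real.cos x := by
  refine le_of_deriv (f := fun t => 1 - t ^ 2 / 2 + t ^ 4 / 24 - t ^ 6 / 720)
    (f' := fun t => -(t - t ^ 3 / 6 + t ^ 5 / 120))
    (g := Real.cos) (g' := fun x => -Real.sin x) (a := 0) ?_ (fun x _ => Real.hasDerivAt_cos x)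
    (by simp) (fun x h => neg_le_neg (sin_le5 h.1.le)) hx
  intro x _
  exact (((((hasDerivAt_const x (1:ℝ)).sub (((hasDerivAt_id x).pow 2).div_const 2))).add
    (((hasDerivAt_id x).pow 4).div_const 24)).sub
    (((hasDerivAt_id x).pow 6).div_const 720)).congr_deriv (by simp; ring)

lemma sin_ge7 {x : ℝ} (hx : 0 ≤ x) : x - x ^ 3 / 6 + x ^ 5 / 120 - x ^ 7 / 5040 ≤ Real.sin x := by
  refine le_of_deriv (f := fun t => t - t ^ 3 / 6 + t ^ 5 / 120 - t ^ 7 / 5040)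
    (f' := fun t => 1 - t ^ 2 / 2 + t ^ 4 / 24 - t ^ 6 / 720) (g := Real.sin)
    (g' := Real.cos) (a := 0) ?_ (fun x _ => Real.hasDerivAt_sin x) (by simp)
    (fun x h => cos_ge6 h.1.le) hx
  intro x _
  exact ((((hasDerivAt_id x).sub (((hasDerivAt_id x).pow 3).div_const 6)).add
    (((hasDerivAt_id x).pow 5).div_const 120)).sub
    (((hasDerivAt_id x).pow 7).div_const 5040)).congr_deriv (by simp; ring)

lemma cos_le8 {x : ℝ} (hx : 0 ≤ x) :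
    Real.cos x ≤ 1 - x ^ 2 / 2 + x ^ 4 / 24 - x ^ 6 / 720 + x ^ 8 / 40320 := by
  refine le_of_deriv (g := fun t => 1 - t ^ 2 / 2 + t ^ 4 / 24 - t ^ 6 / 720 + t ^ 8 / 40320)
    (g' := fun t => -(t - t ^ 3 / 6 + t ^ 5 / 120 - t ^ 7 / 5040))
    (f := Real.cos) (f' := fun x => -Real.sin x) (a := 0) (fun x _ => Real.hasDerivAt_cos x) ?_
    (by simp) (fun x h => neg_le_neg (sin_ge7 h.1.le)) hx
  intro x _
  exact ((((((hasDerivAt_const x (1:ℝ)).sub (((hasDerivAt_id x).pow 2).div_const 2))).add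
    (((hasDerivAt_id x).pow 4).div_const 24)).sub
    (((hasDerivAt_id x).pow 6).div_const 720)).add
    (((hasDerivAt_id x).pow 8).div_const 40320)).congr_deriv (by simp; ring)

/-- the bounds for a number -/
lemma trig {x : ℝ} (hx : 0 ≤ x) :
    x - x ^ 3 / 6 + x ^ 5 / 120 - x ^ 7 / 5040 ≤ Real.sin x ∧
    Real.sin x ≤ x - x ^ 3 / 6 + x ^ 5 / 120 ∧
    1 - x ^ 2 / 2 + x ^ 4 / 24 - x ^ 6 / 720 ≤ Real.cos x ∧
    Real.cos x ≤ 1 - x ^ 2 / 2 + x ^ 4 / 24 - x ^ 6 / 720 + x ^ 8 / 40320 :=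
  ⟨sin_ge7 hx, sin_le5 hx, cos_ge6 hx, cos_le8 hx⟩

lemma sinh_ge3 {x : ℝ} (hx : 0 ≤ x) : x + x ^ 3 / 6 ≤ Real.sinh x := by
  have h1 : ∀ x : ℝ, 0 ≤ x → 1 + x ^ 2 / 2 ≤ Real.cosh x := fun x hx => by
    refine le_of_deriv (f := fun t => 1 + t ^ 2 / 2) (f' := fun t => t) (g := Real.cosh)
      (g' := Real.sinh) (a := 0) ?_ (fun x _ => Real.hasDerivAt_cosh x) (by simp)
      (fun x h => Real.self_le_sinh_iff.2 h.1.le) hx
    intro x _
    exact ((hasDerivAt_const x (1:ℝ)).add (((hasDerivAt_id x).pow 2).div_const 2)).congr_deriv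
      (by simp)
  refine le_of_deriv (f := fun t => t + t ^ 3 / 6) (f' := fun t => 1 + t ^ 2 / 2) (g := Real.sinh)
    (g' := Real.cosh) (a := 0) ?_ (fun x _ => Real.hasDerivAt_sinh x) (by simp)
    (fun x h => h1 x h.1.le) hx
  intro x _
  exact ((hasDerivAt_id x).add (((hasDerivAt_id x).pow 3).div_const 6)).congr_deriv
    (by simp; ring)

lemma cosh_ge2 {x : ℝ} (hx : 0 ≤ x) : 1 + x ^ 2 / 2 ≤ Real.cosh x := by
  refine le_of_deriv (f := fun t => 1 + t ^ 2 / 2) (f' := fun t => t) (g := Real.cosh)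
    (g' := Real.sinh) (a := 0) ?_ (fun x _ => Real.hasDerivAt_cosh x) (by simp)
    (fun x h => Real.self_le_sinh_iff.2 h.1.le) hx
  intro x _
  exact ((hasDerivAt_const x (1:ℝ)).add (((hasDerivAt_id x).pow 2).div_const 2)).congr_deriv
    (by simp)

lemma cosh_one_le : Real.cosh 1 ≤ 31 / 20 := by
  rw [Real.cosh_eq]
  have h1 := Real.exp_one_lt_d9
  have h2 := Real.exp_one_gt_d9
  have h3 : Real.exp (-1) ≤ 37 / 100 := by
    rw [Real.exp_neg, inv_le_comm₀ (Real.exp_pos 1) (by norm_num)]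
    linarith
  linarith

/-- upper bounds on `[0, 1]` -/
lemma hyp {x : ℝ} (h0 : 0 ≤ x) (hx : x ≤ 1) :
    Real.cosh x ≤ 1 + x ^ 2 / 2 + 31 / 480 * x ^ 4 ∧
    Real.sinh x ≤ x + x ^ 3 / 6 + 31 / 2400 * x ^ 5 := by
  have b0 : ∀ x : ℝ, 0 ≤ x → x ≤ 1 → Real.cosh x ≤ 31 / 20 := fun x hx h1 =>
    le_trans (Real.cosh_le_cosh.2 (by rw [abs_of_nonneg hx, abs_one]; exact h1)) cosh_one_le
  have b1 : ∀ x : ℝ, 0 ≤ x → x ≤ 1 → Real.sinh x ≤ 31 / 20 * x := fun x hx hx1 => by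
    refine le_of_deriv (g := fun t => 31 / 20 * t) (g' := fun t => 31 / 20) (f := Real.sinh)
      (f' := Real.cosh) (a := 0) (fun x _ => Real.hasDerivAt_sinh x) ?_ (by simp)
      (fun x h => b0 x h.1.le (by linarith [h.2])) hx
    intro x _
    exact ((hasDerivAt_id x).const_mul _).congr_deriv (by simp)
  have b2 : ∀ x : ℝ, 0 ≤ x → x ≤ 1 → Real.cosh x ≤ 1 + 31 / 40 * x ^ 2 := fun x hx hx1 => by
    refine le_of_deriv (g := fun t => 1 + 31 / 40 * t ^ 2) (g' := fun t => 31 / 20 * t)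
      (f := Real.cosh) (f' := Real.sinh) (a := 0) (fun x _ => Real.hasDerivAt_cosh x) ?_ (by simp)
      (fun x h => b1 x h.1.le (by linarith [h.2])) hx
    intro x _
    exact ((hasDerivAt_const x (1:ℝ)).add (((hasDerivAt_id x).pow 2).const_mul _)).congr_deriv
      (by simp; ring)
  have b3 : ∀ x : ℝ, 0 ≤ x → x ≤ 1 → Real.sinh x ≤ x + 31 / 120 * x ^ 3 := fun x hx hx1 => by
    refine le_of_deriv (g := fun t => t + 31 / 120 * t ^ 3) (g' := fun t => 1 + 31 / 40 * t ^ 2)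
      (f := Real.sinh) (f' := Real.cosh) (a := 0) (fun x _ => Real.hasDerivAt_sinh x) ?_ (by simp)
      (fun x h => b2 x h.1.le (by linarith [h.2])) hx
    intro x _
    exact ((hasDerivAt_id x).add (((hasDerivAt_id x).pow 3).const_mul _)).congr_deriv
      (by simp; ring)
  have b4 : ∀ x : ℝ, 0 ≤ x → x ≤ 1 → Real.cosh x ≤ 1 + x ^ 2 / 2 + 31 / 480 * x ^ 4 :=
    fun x hx hx1 => by
    refine le_of_deriv (g := fun t => 1 + t ^ 2 / 2 + 31 / 480 * t ^ 4)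
      (g' := fun t => t + 31 / 120 * t ^ 3)
      (f := Real.cosh) (f' := Real.sinh) (a := 0) (fun x _ => Real.hasDerivAt_cosh x) ?_ (by simp)
      (fun x h => b3 x h.1.le (by linarith [h.2])) hx
    intro x _
    exact (((hasDerivAt_const x (1:ℝ)).add (((hasDerivAt_id x).pow 2).div_const 2)).add
      (((hasDerivAt_id x).pow 4).const_mul _)).congr_deriv (by simp; ring)
  refine ⟨b4 x h0 hx, ?_⟩
  refine le_of_deriv (g := fun t => t + t ^ 3 / 6 + 31 / 2400 * t ^ 5)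
    (g' := fun t => 1 + t ^ 2 / 2 + 31 / 480 * t ^ 4)
    (f := Real.sinh) (f' := Real.cosh) (a := 0) (fun x _ => Real.hasDerivAt_sinh x) ?_ (by simp)
    (fun x h => b4 x h.1.le (by linarith [h.2])) h0
  intro x _
  exact (((hasDerivAt_id x).add (((hasDerivAt_id x).pow 3).div_const 6)).add
    (((hasDerivAt_id x).pow 5).const_mul _)).congr_deriv (by simp; ring)

lemma arsinh_le_self {s : ℝ} (hs : 0 ≤ s) : Real.arsinh s ≤ s := by
  rw [← Real.sinh_le_sinh, Real.sinh_arsinh]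
  exact Real.self_le_sinh_iff.2 hs

/-- lower bound of `arsinh` -/
lemma arsinh_ge {s t : ℝ} (h0 : 0 ≤ t) (h1 : t ≤ 1) (h : t + t ^ 3 / 6 + 31 / 2400 * t ^ 5 ≤ s) :
    t ≤ Real.arsinh s := by
  rw [← Real.sinh_le_sinh, Real.sinh_arsinh]
  exact (hyp h0 h1).2.trans h

/-- the bounds of `tan` from those of `sin` and `cos` -/
lemma tan_le {x s c t : ℝ} (hs : Real.sin x ≤ s) (hc : c ≤ Real.cos x) (c0 : 0 < c) (h0 : 0 ≤ t)
    (h : s ≤ t * c) : Real.tan x ≤ t := by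
  rw [Real.tan_eq_sin_div_cos, div_le_iff₀ (by linarith)]
  nlinarith

lemma le_tan {x s c t : ℝ} (hs : s ≤ Real.sin x) (hc : Real.cos x ≤ c) (c0 : 0 < Real.cos x)
    (h0 : 0 ≤ t) (h : t * c ≤ s) : t ≤ Real.tan x := by
  rw [Real.tan_eq_sin_div_cos, le_div_iff₀ c0]
  nlinarith

lemma tan_le' {x t : ℝ} (hx : 0 ≤ x) (hc : 0 < 1 - x ^ 2 / 2 + x ^ 4 / 24 - x ^ 6 / 720)
    (ht : 0 ≤ t) (h : x - x ^ 3 / 6 + x ^ 5 / 120 ≤
      t * (1 - x ^ 2 / 2 + x ^ 4 / 24 - x ^ 6 / 720)) : Real.tan x ≤ t :=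
  tan_le (sin_le5 hx) (cos_ge6 hx) hc ht h

lemma le_tan' {x t : ℝ} (hx : 0 ≤ x) (hc : 0 < 1 - x ^ 2 / 2 + x ^ 4 / 24 - x ^ 6 / 720)
    (ht : 0 ≤ t) (h : t * (1 - x ^ 2 / 2 + x ^ 4 / 24 - x ^ 6 / 720 + x ^ 8 / 40320) ≤
      x - x ^ 3 / 6 + x ^ 5 / 120 - x ^ 7 / 5040) : t ≤ Real.tan x :=
  le_tan (sin_ge7 hx) (cos_le8 hx) (lt_of_lt_of_le hc (cos_ge6 hx)) ht h

lemma cos_le' {x c : ℝ} (hx : 0 ≤ x)
    (h : 1 - x ^ 2 / 2 + x ^ 4 / 24 - x ^ 6 / 720 + x ^ 8 / 40320 ≤ c) : Real.cos x ≤ c :=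
  (cos_le8 hx).trans h

lemma le_cos' {x c : ℝ} (hx : 0 ≤ x)
    (h : c ≤ 1 - x ^ 2 / 2 + x ^ 4 / 24 - x ^ 6 / 720) : c ≤ Real.cos x :=
  h.trans (cos_ge6 hx)

lemma le_sin' {x c : ℝ} (hx : 0 ≤ x)
    (h : c ≤ x - x ^ 3 / 6 + x ^ 5 / 120 - x ^ 7 / 5040) : c ≤ Real.sin x :=
  h.trans (sin_ge7 hx)

lemma cosh_le' {x c : ℝ} (hx : 0 ≤ x) (hx1 : x ≤ 1) (h : 1 + x ^ 2 / 2 + 31 / 480 * x ^ 4 ≤ c) :
    Real.cosh x ≤ c := (hyp hx hx1).1.trans h

lemma sinh_le' {x c : ℝ} (hx : 0 ≤ x) (hx1 : x ≤ 1)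
    (h : x + x ^ 3 / 6 + 31 / 2400 * x ^ 5 ≤ c) : Real.sinh x ≤ c := (hyp hx hx1).2.trans h

end Pool.Agent.N868.VS
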