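import Pool.Agent.N561.A.Stm
import Pool.Agent.N868.VS.Trig

/-!
# The inequality `e^{Im z / 2} sin (Re z / 2) < 1` at the critical points

With `z / 2 = p + i q` and `gdi (z / 2) = R + i I` one has `sin p = cosh q tanh R` and
`sin I = cosh R tanh q`, and `e^q sin p < 1` is equivalent to `tanh q + tanh R < 1`; everything is
symmetric under `(p, q, R, I) ↦ (I, R, q, p)`.
-/

set_option autoImplicit false

namespace Pool.Agent.N868.VS

open Finset Filter Topology Metric
open Pool.Agent.N561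
open scoped Real

lemma tanh_exp (x : ℝ) : Real.tanh x = (Real.exp (2 * x) - 1) / (Real.exp (2 * x) + 1) := by
  have h1 : Real.exp (2 * x) = Real.exp x * Real.exp x := by rw [← Real.exp_add]; ring_nf
  have h2 : Real.exp (-x) = 1 / Real.exp x := by rw [Real.exp_neg, one_div]
  have h3 := Real.exp_pos x
  rw [Real.tanh_eq_sinh_div_cosh, Real.sinh_eq, Real.cosh_eq, h1, h2]
  field_simp

lemma tanh_pos' {x : ℝ} (hx : 0 < x) : 0 < Real.tanh x := by
  rw [Real.tanh_eq_sinh_div_cosh]
  exact div_pos (Real.sinh_pos_iff.2 hx) (Real.cosh_pos x)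

lemma tanh_lt_one' (x : ℝ) : Real.tanh x < 1 := by
  rw [tanh_exp, div_lt_one (by positivity)]
  linarith

/-- `sin² I ≥ T / (2 - T)` -/
lemma sI {s T ρ : ℝ} (hT : 0 < T) (hT1 : T < 1) (h : s * (1 - ρ ^ 2) = T ^ 2)
    (hs : 1 ≤ T + ρ) (s0 : 0 ≤ s) : T ≤ s * (2 - T) := by
  have h1 : (1 - T) ^ 2 ≤ ρ ^ 2 := pow_le_pow_left₀ (by linarith) (by linarith) 2
  have h2 : T ^ 2 ≤ s * (T * (2 - T)) := by
    rw [← h]
    apply mul_le_mul_of_nonneg_left _ s0
    nlinarith
  have h3 : T * T ≤ T * (s * (2 - T)) := by nlinarith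
  exact le_of_mul_le_mul_left h3 hT

/-- `sin² p ≥ (1 - T) / (1 + T)` -/
lemma sp {s T ρ : ℝ} (hT1 : T < 1) (h : s * (1 - T ^ 2) = ρ ^ 2)
    (hs : 1 ≤ T + ρ) : 1 - T ≤ s * (1 + T) := by
  have h1 : (1 - T) ^ 2 ≤ ρ ^ 2 := pow_le_pow_left₀ (by linarith) (by linarith) 2
  have h3 : (1 - T) * (1 - T) ≤ (1 - T) * (s * (1 + T)) := by nlinarith
  exact le_of_mul_le_mul_left h3 (by linarith)

lemma ang {x t c : ℝ} (h0 : 0 < x) (h1 : x < π / 2) (ht : 0 ≤ t) (ht1 : t ≤ 1)
    (hc : t - t ^ 3 / 6 + t ^ 5 / 120 ≤ c) (h : c ^ 2 < Real.sin x ^ 2) : t < x := by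
  by_contra h2
  push Not at h2
  have h3 : Real.sin x ≤ Real.sin t :=
    Real.sin_le_sin_of_le_of_le_pi_div_two (by linarith [Real.pi_pos])
      (by linarith [Real.pi_gt_three]) h2
  have h4 := sin_le5 ht
  have h5 : 0 ≤ Real.sin x := (Real.sin_pos_of_pos_of_lt_pi h0 (by linarith [Real.pi_pos])).le
  have h6 := pow_le_pow_left₀ h5 (h3.trans (h4.trans hc)) 2
  linarith

theorem core {n b q R p I : ℝ} (hq : 0 < q) (hR : 0 < R) (hp0 : 0 < p) (hp1 : p < π / 2)
    (hI0 : 0 < I) (hI1 : I < π / 2)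
    (e1 : Real.sin p ^ 2 * (1 - Real.tanh q ^ 2) = Real.tanh R ^ 2)
    (e2 : Real.sin I ^ 2 * (1 - Real.tanh R ^ 2) = Real.tanh q ^ 2)
    (hs : 1 ≤ Real.tanh q + Real.tanh R) (hbq : b * q = n * R) (hb : 0 < b)
    (hc : (4 ≤ n ∧ b ≤ n) ∨ (3 ≤ n ∧ b = n) ∨ (n = 3 ∧ b = 2)) : π < b * p + n * I := by
  have hpi := Real.pi_lt_d2
  have T0 := tanh_pos' hq
  have ρ0 := tanh_pos' hR
  have T1 := tanh_lt_one' q
  have ρ1 := tanh_lt_one' R
  have k1 := sI T0 T1 e2 hs (sq_nonneg _)
  have k2 := sp T1 e1 hs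
  have hn : 0 < n := by rcases hc with h | h | h <;> linarith [h.1]
  have hRq : R ≤ q := by
    have : b ≤ n := by
      rcases hc with h | h | h
      · exact h.2
      · exact h.2.le
      · rw [h.1, h.2]; norm_num
    nlinarith
  have hmono : Real.tanh R ≤ Real.tanh q := by
    rw [tanh_exp, tanh_exp, div_le_div_iff₀ (by positivity) (by positivity)]
    have := Real.exp_le_exp.2 (by linarith : 2 * R ≤ 2 * q)
    nlinarith
  have hT2 : 1 / 2 ≤ Real.tanh q := by linarith
  have hI3 : 1 / 3 ≤ Real.sin I ^ 2 := by nlinarith [sq_nonneg (Real.sin I)]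
  have hI6 : 61 / 100 < I := ang (c := 574 / 1000) hI0 hI1 (by norm_num) (by norm_num) (by norm_num)
    (by norm_num at *; linarith)
  rcases hc with ⟨hn4, hbn⟩ | ⟨hn3, hbn⟩ | ⟨rfl, rfl⟩
  · by_cases hT : 2 / 3 ≤ Real.tanh q
    · have h1 : 1 / 2 ≤ Real.sin I ^ 2 := by nlinarith [sq_nonneg (Real.sin I)]
      have h2 : π / 4 ≤ I := by
        by_contra h3
        push Not at h3
        have h4 := Real.sin_lt_sin_of_lt_of_le_pi_div_two (by linarith [Real.pi_pos])
          (by linarith [Real.pi_pos]) h3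
        have h5 : 0 < Real.sin I := Real.sin_pos_of_pos_of_lt_pi hI0 (by linarith [Real.pi_pos])
        rw [Real.sin_pi_div_four] at h4
        have h6 : √2 ^ 2 = 2 := Real.sq_sqrt (by norm_num)
        nlinarith
      have h3 : 0 < b * p := mul_pos hb hp0
      nlinarith
    · push Not at hT
      have h1 : 1 / 3 < Real.tanh R := by linarith
      have h2 : 2 < Real.exp (2 * R) := by
        rw [tanh_exp, lt_div_iff₀ (by positivity)] at h1
        linarith
      have h3 : Real.exp (2 * q) < 5 := by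
        rw [tanh_exp, div_lt_iff₀ (by positivity)] at hT
        linarith
      have h4 : 3 * q ≤ 7 * R := by
        by_contra h5
        push Not at h5
        have h6 := Real.exp_lt_exp.2 (by push_cast; linarith :
          ((7 : ℕ) : ℝ) * (2 * R) < ((3 : ℕ) : ℝ) * (2 * q))
        rw [Real.exp_nat_mul, Real.exp_nat_mul] at h6
        have h7 := pow_lt_pow_left₀ h2 (by norm_num) (by norm_num : (7 : ℕ) ≠ 0)
        have h8 := pow_lt_pow_left₀ h3 (Real.exp_pos _).le (by norm_num : (3 : ℕ) ≠ 0)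
        linarith
      have h5 : 3 * n ≤ 7 * b := by
        have : 3 * n * q ≤ 7 * b * q := by nlinarith
        exact le_of_mul_le_mul_right this hq
      have h6 : 1 / 5 < Real.sin p ^ 2 := by nlinarith [sq_nonneg (Real.sin p)]
      have h7 : 447 / 1000 < p := by
        have h8 := Real.sin_lt hp0
        have h9 : 0 < Real.sin p := Real.sin_pos_of_pos_of_lt_pi hp0 (by linarith [Real.pi_pos])
        nlinarith
      nlinarith
  · have hqR : q = R := by
      rw [hbn] at hbq
      exact mul_left_cancel₀ hn.ne' hbq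
    have h1 : 1 / 3 ≤ Real.sin p ^ 2 := by
      rw [← hqR] at e1
      nlinarith [sq_nonneg (Real.sin p)]
    have hp6 : 61 / 100 < p := ang (c := 574 / 1000) hp0 hp1 (by norm_num) (by norm_num) (by norm_num)
      (by norm_num at *; linarith)
    rw [hbn]
    nlinarith
  · have hq' : 2 * q = (3 : ℕ) * R := by push_cast; linarith
    have hR' : 2 * R = (2 : ℕ) * R := by push_cast; ring
    set y := Real.exp R with hy
    have e3 : Real.tanh q = (y ^ 3 - 1) / (y ^ 3 + 1) := by
      rw [tanh_exp, hq', Real.exp_nat_mul]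
    have e4 : Real.tanh R = (y ^ 2 - 1) / (y ^ 2 + 1) := by
      rw [tanh_exp, hR', Real.exp_nat_mul]
    have y1 : 1 < y := Real.one_lt_exp_iff.2 hR
    have hy2 : 1559 / 1000 ≤ y := by
      by_contra h1
      push Not at h1
      have h2 : (y ^ 3 - 1) / (y ^ 3 + 1) + (y ^ 2 - 1) / (y ^ 2 + 1) < 1 := by
        rw [div_add_div _ _ (by positivity) (by positivity), div_lt_one (by positivity)]
        have h3 : y ^ 5 - y ^ 3 - y ^ 2 < 3 := by
          have : y ^ 2 * (y ^ 3 - y - 1) < 3 := by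
            have a1 : y ^ 2 < (1559 / 1000) ^ 2 := pow_lt_pow_left₀ h1 (by linarith) (by norm_num)
            have a2 : y ^ 3 - y - 1 ≤ (1559 / 1000) ^ 3 - 1559 / 1000 - 1 := by
              nlinarith [sq_nonneg y, mul_pos (by linarith : 0 < y) (by linarith : 0 < y)]
            have a3 : (0:ℝ) < (1559 / 1000) ^ 3 - 1559 / 1000 - 1 := by norm_num
            calc y ^ 2 * (y ^ 3 - y - 1) ≤ y ^ 2 * ((1559 / 1000) ^ 3 - 1559 / 1000 - 1) :=
                  mul_le_mul_of_nonneg_left a2 (sq_nonneg y)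
              _ ≤ (1559 / 1000) ^ 2 * ((1559 / 1000) ^ 3 - 1559 / 1000 - 1) :=
                  mul_le_mul_of_nonneg_right a1.le a3.le
              _ < 3 := by norm_num
          nlinarith
        nlinarith
      rw [e3, e4] at hs
      linarith
    have hT3 : 582 / 1000 ≤ Real.tanh q := by
      rw [e3, le_div_iff₀ (by positivity)]
      have : (1559 / 1000) ^ 3 ≤ y ^ 3 := pow_le_pow_left₀ (by norm_num) hy2 3
      norm_num at this ⊢
      linarith
    have hρ3 : 4169 / 10000 ≤ Real.tanh R := by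
      rw [e4, le_div_iff₀ (by positivity)]
      have : (1559 / 1000) ^ 2 ≤ y ^ 2 := pow_le_pow_left₀ (by norm_num) hy2 2
      norm_num at this ⊢
      linarith
    have hI7 : 695 / 1000 < I := ang (c := 6405 / 10000) hI0 hI1 (by norm_num) (by norm_num) (by norm_num)
      (by nlinarith [sq_nonneg (Real.sin I)])
    have hp5 : 537 / 1000 < p := ang (c := 5116 / 10000) hp0 hp1 (by norm_num) (by norm_num) (by norm_num)
      (by
        by_contra h1
        push Not at h1
        have a1 : (582 / 1000 : ℝ) ^ 2 ≤ Real.tanh q ^ 2 := pow_le_pow_left₀ (by norm_num) hT3 2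
        have a2 : (4169 / 10000 : ℝ) ^ 2 ≤ Real.tanh R ^ 2 := pow_le_pow_left₀ (by norm_num) hρ3 2
        have a3 : Real.sin p ^ 2 * (1 - Real.tanh q ^ 2) ≤
            (5116 / 10000) ^ 2 * (1 - (582 / 1000) ^ 2) := by
          apply mul_le_mul h1 (by linarith) _ (by norm_num)
          nlinarith
        rw [e1] at a3
        norm_num at a2 a3
        linarith)
    linarith

/-- job M3 -/
theorem mirz' (hS : S_SF) (n : ℕ) (a : ℤ) (z : ℂ) (hn : 1 ≤ n) (ha : a < 0)
    (hna : 5 ≤ (n : ℤ) - a) (hz : z ∈ GG) (hre : 0 ≤ z.re)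
    (hc : Complex.I * a * z / (2 * π) + Complex.I - n / π * gdi (z / 2) = 0) :
    Real.exp (z.im / 2) * Real.sin (z.re / 2) < 1 := by
  by_contra hcon
  push Not at hcon
  have hpi := Real.pi_gt_three
  obtain ⟨g1, g2, -, -⟩ := hz
  have hpc : (π : ℂ) ≠ 0 := by exact_mod_cast Real.pi_pos.ne'
  have er : (z / 2).re = z.re / 2 := by simp
  have ei : (z / 2).im = z.im / 2 := by simp
  have hw : |(z / 2).re| < π / 2 := by
    rw [er, abs_div, abs_two]
    linarith
  obtain ⟨-, h1, h2⟩ := hS.1 (z / 2) hw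
  rw [er, ei] at h1 h2
  rw [er] at hw
  set p := z.re / 2 with hp
  set q := z.im / 2 with hq
  set R := (gdi (z / 2)).re with hR
  set I := (gdi (z / 2)).im with hI
  have hc' : Complex.I * a * (z / 2) + Complex.I * π - n * gdi (z / 2) = 0 := by
    have : (π : ℂ) * (Complex.I * a * z / (2 * π) + Complex.I - n / π * gdi (z / 2)) = 0 := by
      rw [hc, mul_zero]
    rw [← this]
    field_simp
  have c1 : -a * q = n * R := by
    have := congrArg Complex.re hc'
    simp at this
    rw [hq, hR]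
    linarith
  have c2 : a * p + π = n * I := by
    have := congrArg Complex.im hc'
    simp at this
    rw [hp, hI]
    linarith
  have hq0 : 0 < q := by rw [hq]; linarith
  have hp0 : 0 < p := by
    rcases eq_or_lt_of_le (by rw [hp]; linarith : 0 ≤ p) with h | h
    · rw [← h, Real.sin_zero, mul_zero] at hcon
      linarith
    · exact h
  have hp1 : p < π / 2 := (abs_lt.1 hw).2
  have hcp : 0 < Real.cos p := Real.cos_pos_of_mem_Ioo ⟨by linarith, hp1⟩
  have hsp : 0 < Real.sin p := Real.sin_pos_of_pos_of_lt_pi hp0 (by linarith)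
  have hcq := Real.cosh_pos q
  have hsq : 0 < Real.sinh q := Real.sinh_pos_iff.2 hq0
  have i1 := Real.sin_sq_add_cos_sq p
  have i2 := Real.cosh_sq q
  have i3 : Real.tanh q * Real.cosh q = Real.sinh q := by
    rw [Real.tanh_eq_sinh_div_cosh]
    field_simp
  have hquot : Real.sin p / Real.cosh q ∈ Set.Ioo (-1 : ℝ) 1 := by
    refine ⟨lt_trans (by norm_num) (div_pos hsp hcq), ?_⟩
    rw [div_lt_one hcq]
    nlinarith
  have hρ : Real.tanh R * Real.cosh q = Real.sin p := by
    rw [h1, Real.tanh_artanh hquot]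
    field_simp
  have hT : Real.tan I * Real.cos p = Real.sinh q := by
    rw [h2, Real.tan_arctan]
    field_simp
  have hI0 : 0 < I := by
    rw [h2]
    exact Real.arctan_pos.2 (div_pos hsq hcp)
  have hI1 : I < π / 2 := by
    rw [h2]
    exact Real.arctan_lt_pi_div_two _
  have hcI : 0 < Real.cos I := Real.cos_pos_of_mem_Ioo ⟨by linarith, hI1⟩
  have i4 := Real.sin_sq_add_cos_sq I
  have hT' : Real.sin I * Real.cos p = Real.sinh q * Real.cos I := by
    rw [Real.tan_eq_sin_div_cos] at hT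
    field_simp at hT
    linarith
  have hR0 : 0 < R := by
    by_contra h
    push Not at h
    have : Real.tanh R ≤ 0 := by
      rw [tanh_exp]
      apply div_nonpos_of_nonpos_of_nonneg _ (by positivity)
      have := Real.exp_le_one_iff.2 (by linarith : 2 * R ≤ 0)
      linarith
    nlinarith
  have e1 : Real.sin p ^ 2 * (1 - Real.tanh q ^ 2) = Real.tanh R ^ 2 := by
    have k : Real.cosh q ^ 2 * (1 - Real.tanh q ^ 2) = 1 := by
      have : Real.cosh q ^ 2 * (1 - Real.tanh q ^ 2) =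
        Real.cosh q ^ 2 - (Real.tanh q * Real.cosh q) ^ 2 := by ring
      rw [this, i3, i2]
      ring
    rw [← hρ]
    calc _ = Real.tanh R ^ 2 * (Real.cosh q ^ 2 * (1 - Real.tanh q ^ 2)) := by ring
      _ = _ := by rw [k, mul_one]
  have e2 : Real.sin I ^ 2 * (1 - Real.tanh R ^ 2) = Real.tanh q ^ 2 := by
    have k1 : Real.cosh q ^ 2 * (1 - Real.tanh R ^ 2) = Real.sinh q ^ 2 + Real.cos p ^ 2 := by
      have : Real.cosh q ^ 2 * (1 - Real.tanh R ^ 2) =
        Real.cosh q ^ 2 - (Real.tanh R * Real.cosh q) ^ 2 := by ring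
      rw [this, hρ, i2]
      linarith
    have k2 : Real.sin I ^ 2 * (Real.sinh q ^ 2 + Real.cos p ^ 2) = Real.sinh q ^ 2 := by
      have : (Real.sin I * Real.cos p) ^ 2 = (Real.sinh q * Real.cos I) ^ 2 := by rw [hT']
      nlinarith
    have k3 : Real.cosh q ^ 2 * (Real.sin I ^ 2 * (1 - Real.tanh R ^ 2)) =
        Real.cosh q ^ 2 * Real.tanh q ^ 2 := by
      calc _ = Real.sin I ^ 2 * (Real.cosh q ^ 2 * (1 - Real.tanh R ^ 2)) := by ring
        _ = (Real.tanh q * Real.cosh q) ^ 2 := by rw [k1, k2, i3]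
        _ = _ := by ring
    exact mul_left_cancel₀ (by positivity) k3
  have hs : 1 ≤ Real.tanh q + Real.tanh R := by
    have k1 : Real.cosh q - Real.sinh q = Real.exp (-q) := Real.cosh_sub_sinh q
    have k2 : Real.exp (-q) ≤ Real.sin p := by
      rw [Real.exp_neg, inv_le_iff_one_le_mul₀ (Real.exp_pos q)]
      linarith
    have k3 : Real.cosh q * 1 ≤ Real.cosh q * (Real.tanh q + Real.tanh R) := by
      nlinarith
    exact le_of_mul_le_mul_left k3 hcq
  have hnR : (1:ℝ) ≤ n := by exact_mod_cast hn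
  have haR : (a : ℝ) ≤ -1 := by exact_mod_cast (by omega : a ≤ -1)
  rcases le_total (-a) (n : ℤ) with hle | hle
  · have hleR : -(a : ℝ) ≤ n := by exact_mod_cast hle
    have := core (n := n) (b := -a) hq0 hR0 hp0 hp1 hI0 hI1 e1 e2 hs c1 (by linarith) (by
      rcases (by omega : 4 ≤ n ∨ (n = 3 ∧ (a = -2 ∨ a = -3))) with h | ⟨rfl, rfl | rfl⟩
      · left
        exact ⟨by exact_mod_cast h, hleR⟩
      · right; right
        norm_num
      · right; left
        norm_num)
    linarith
  · have hleR : (n : ℝ) ≤ -a := by exact_mod_cast hle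
    have := core (n := -a) (b := n) hR0 hq0 hI0 hI1 hp0 hp1 e2 e1 (by linarith) c1.symm
      (by linarith) (by
      rcases (by omega : 4 ≤ -a ∨ (a = -3 ∧ (n = 2 ∨ n = 3))) with h | ⟨rfl, rfl | rfl⟩
      · left
        exact ⟨by exact_mod_cast h, hleR⟩
      · right; right
        norm_num
      · right; left
        norm_num)
    linarith

end Pool.Agent.N868.VS
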