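import Pool.Agent.N561.V.Mir
import Pool.Agent.N868.VS.Mz

/-!
# Job M3
-/

set_option autoImplicit false

namespace Pool.Agent.N868.VS

open Pool.Agent.N561

/-- job M3 -/
theorem mirz (hS : S_SF) : S_MIRZ := fun n a z hn ha hna hz hre hc =>
  mirz' hS n a z hn ha hna hz hre hc

end Pool.Agent.N868.VS
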