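import Pool.Agent.N868.VS.Ivt

/-!
# `S_PATH`: the types `(3,-2)`, `(2,-2)` and `(3,-1)`
-/

set_option autoImplicit false

namespace Pool.Agent.N868.VS

open Finset Filter Topology Metric
open Pool.Agent.W711.HT (bet)
open Pool.Agent.N561
open scoped Real

lemma p2_of_p1' {m w : ℝ} (hm : 0 ≤ m) (hm1 : m ≤ 103 / 100) {n : ℝ} (hn : n ≤ 3)
    (p1 : -n * J m < w) : -(π * bet) < w := by
  have hpi := Real.pi_gt_d4
  have h1 := J_mono (a := m) (b := π / 3) hm (by linarith) (by linarith)
  have h2 := J_mono (a := 0) (b := m) le_rfl hm (by linarith)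
  rw [J_third] at h1
  rw [J_zero] at h2
  nlinarith

theorem case32 (hS : S_SF) : ∃ (z : ℂ) (x₁ x₂ y₁ : ℝ), PathD 3 (-2) z x₁ x₂ y₁ := by
  have hpi := Real.pi_gt_d4
  have hpi2 := Real.pi_lt_d4
  have hb : (-((-2 : ℤ) : ℝ)) = 2 := by norm_num
  have hn : ((3 : ℕ) : ℝ) = 3 := by norm_num
  set θ : ℝ := (π - 2 * (52 / 100)) / 3 with hθ
  have hθ1 : 7005 / 10000 ≤ θ := by
    rw [hθ]
    linarith
  have hθ2 : θ ≤ 7006 / 10000 := by
    rw [hθ]
    linarith
  have c52 : 867 / 1000 ≤ Real.cos (52 / 100) := le_cos' (by norm_num) (by norm_num)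
  have c52' : Real.cos (52 / 100) ≤ 868 / 1000 := cos_le' (by norm_num) (by norm_num)
  have cθ : Real.cos θ ≤ 765 / 1000 :=
    (Real.cos_le_cos_of_nonneg_of_le_pi (x := 7005 / 10000) (y := θ) (by norm_num)
      (by linarith) hθ1).trans (cos_le' (by norm_num) (by norm_num))
  have cθ0 : 0 < Real.cos θ := cos_pos' (abs_lt.2 ⟨by linarith, by linarith⟩)
  have tθ : 843 / 1000 ≤ Real.tan θ := by
    refine le_trans ?_ (tan_mono' (a := 7005 / 10000) (by norm_num) hθ1 (by linarith))
    exact le_tan' (by norm_num) (by norm_num) (by norm_num) (by norm_num)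
  have tθ' : Real.tan θ ≤ 844 / 1000 := by
    refine (tan_mono' (b := 7006 / 10000) (by linarith) hθ2 (by linarith)).trans ?_
    exact tan_le' (by norm_num) (by norm_num) (by norm_num) (by norm_num)
  have gl : (3:ℝ) * Real.arsinh (Real.tan (52 / 100) * Real.cos ((π - 2 * (52 / 100)) / 3)) <
      2 * Real.arsinh (Real.cos (52 / 100) * Real.tan ((π - 2 * (52 / 100)) / 3)) := by
    rw [← hθ]
    have e1 : Real.tan (52 / 100) ≤ 573 / 1000 :=
      tan_le' (by norm_num) (by norm_num) (by norm_num) (by norm_num)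
    have e0 : 0 ≤ Real.tan (52 / 100) :=
      Real.tan_nonneg_of_nonneg_of_le_pi_div_two (by norm_num) (by linarith)
    have e2 := (arsinh_le_self (mul_nonneg e0 cθ0.le)).trans
      (mul_le_mul e1 cθ cθ0.le (by norm_num))
    have e3 : 67 / 100 ≤ Real.arsinh (Real.cos (52 / 100) * Real.tan θ) := by
      refine arsinh_ge (by norm_num) (by norm_num) (le_trans ?_
        (mul_le_mul c52 tθ (by norm_num) (by linarith)))
      norm_num
    linarith
  have gr : (2:ℝ) * Real.arsinh (Real.cos (103 / 100) * Real.tan ((π - 2 * (103 / 100)) / 3)) <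
      3 * Real.arsinh (Real.tan (103 / 100) * Real.cos ((π - 2 * (103 / 100)) / 3)) := by
    have c103 : Real.cos (103 / 100) ≤ 6 / 10 := cos_le' (by norm_num) (by norm_num)
    have c103' : 5 / 10 ≤ Real.cos (103 / 100) := le_cos' (by norm_num) (by norm_num)
    have hη0 : 0 ≤ (π - 2 * (103 / 100)) / 3 := by linarith
    have hη1 : (π - 2 * (103 / 100)) / 3 ≤ 37 / 100 := by linarith
    have c1 : Real.cos (37 / 100) ≤ Real.cos ((π - 2 * (103 / 100)) / 3) :=
      Real.cos_le_cos_of_nonneg_of_le_pi hη0 (by linarith) hη1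
    have c2 : 93 / 100 ≤ Real.cos (37 / 100) := le_cos' (by norm_num) (by norm_num)
    have a1 : Real.tan ((π - 2 * (103 / 100)) / 3) ≤ 4 / 10 :=
      (tan_mono' hη0 hη1 (by linarith)).trans
        (tan_le' (by norm_num) (by norm_num) (by norm_num) (by norm_num))
    have a0 : 0 ≤ Real.tan ((π - 2 * (103 / 100)) / 3) :=
      Real.tan_nonneg_of_nonneg_of_le_pi_div_two hη0 (by linarith)
    have a2 : 16 / 10 ≤ Real.tan (103 / 100) :=
      le_tan' (by norm_num) (by norm_num) (by norm_num) (by norm_num)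
    have a3 : (1:ℝ) / 2 ≤ Real.arsinh (Real.tan (103 / 100) *
        Real.cos ((π - 2 * (103 / 100)) / 3)) := by
      refine arsinh_ge (by norm_num) (by norm_num) (le_trans ?_
        (mul_le_mul a2 (c2.trans c1) (by norm_num) (by linarith)))
      norm_num
    have a4 : Real.arsinh (Real.cos (103 / 100) * Real.tan ((π - 2 * (103 / 100)) / 3)) ≤
        6 / 10 * (4 / 10) := by
      refine (arsinh_le_self (mul_nonneg (by linarith) a0)).trans ?_
      exact mul_le_mul c103 a1 a0 (by norm_num)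
    linarith
  obtain ⟨x, y, C, -, hx, hy, -⟩ := exists_crit (n := 3) (b := 2) (l := 52 / 100)
    (r := 103 / 100) (by norm_num) (by norm_num) (by norm_num) (by norm_num) (by linarith)
    (by rw [← hθ]; linarith) (by linarith) gl gr
  rw [← hθ] at hy
  have hy1 : Real.sinh y < 735 / 1000 := by
    refine lt_of_lt_of_le hy (le_trans (mul_le_mul c52' tθ' (by linarith) (by norm_num)) ?_)
    norm_num
  have p1 : -3 * J (103 / 100) < W 3 2 x y := by
    have h1 := W_le_c hS (by norm_num) C (t := 8 / 10)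
      (by rw [abs_of_nonneg (by norm_num)]; linarith)
    have h2 := W_ge (n := 3) (b := 2) (x := 8 / 10) (θ := (π - 2 * (8 / 10)) / 3) (by norm_num)
      (by rw [abs_of_nonneg (by norm_num)]; linarith) (by ring) (by linarith) (by linarith) y
    have c8 : Real.cos (8 / 10) ≤ 7 / 10 := cos_le' (by norm_num) (by norm_num)
    have c80 : 0 < Real.cos (8 / 10) :=
      lt_of_lt_of_le (by norm_num : (0:ℝ) < 1 / 2) (le_cos' (by norm_num) (by norm_num))
    have h5 := Le_le_sq (c := Real.cos (8 / 10)) (θ := (π - 2 * (8 / 10)) / 3) c80 (by linarith)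
      (by linarith)
    have a1 : Real.tan ((π - 2 * (8 / 10)) / 3) ≤ 573 / 1000 :=
      (tan_mono' (b := 52 / 100) (by linarith) (by linarith) (by linarith)).trans
        (tan_le' (by norm_num) (by norm_num) (by norm_num) (by norm_num))
    have a0 : 0 ≤ Real.tan ((π - 2 * (8 / 10)) / 3) :=
      Real.tan_nonneg_of_nonneg_of_le_pi_div_two (by linarith) (by linarith)
    have h7 : Real.cos (8 / 10) / 2 * Real.tan ((π - 2 * (8 / 10)) / 3) ^ 2 ≤
        7 / 20 * (573 / 1000) ^ 2 :=
      mul_le_mul (by linarith) (by nlinarith) (by positivity) (by norm_num)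
    have h8 := J_sub_ge (a := 8 / 10) (b := 103 / 100) (by norm_num) (by norm_num) (by linarith)
    have h9 := Li_ge (t := 8 / 10) (by norm_num) (by linarith)
    have h10 : J (8 / 10) + Le (Real.cos (8 / 10)) ((π - 2 * (8 / 10)) / 3) < J (103 / 100) := by
      norm_num at h9 h7 h8 h5 ⊢
      linarith
    linarith
  have hC : Cr ((3 : ℕ) : ℝ) (-((-2 : ℤ) : ℝ)) x y := by rw [hb, hn]; exact C
  exact ⟨_, _, _, _, mk' hS (by norm_num) (by norm_num) hC hx (by norm_num)
    (lt_of_sinh (by norm_num) hy1 (by norm_num))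
    (G_of (S := 735 / 1000) cos_206 (by norm_num) C.y0 hy1.le (by norm_num))
    (by rw [hb, hn]; exact p1)
    (by rw [hb, hn]; exact p2_of_p1' (by norm_num) le_rfl le_rfl p1)⟩

theorem case22 (hS : S_SF) : ∃ (z : ℂ) (x₁ x₂ y₁ : ℝ), PathD 2 (-2) z x₁ x₂ y₁ := by
  have hpi := Real.pi_gt_d4
  have hpi2 := Real.pi_lt_d4
  have hb : (-((-2 : ℤ) : ℝ)) = 2 := by norm_num
  have hn : ((2 : ℕ) : ℝ) = 2 := by norm_num
  have h2 : √2 * √2 = 2 := Real.mul_self_sqrt (by norm_num)
  have h20 : 0 < √2 := by positivity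
  have h21 : √2 ≤ 1415 / 1000 := by nlinarith
  have hax : |π / 4| < π / 2 := abs_lt.2 ⟨by linarith, by linarith⟩
  have C : Cr 2 2 (π / 4) (Real.arsinh (√2 / 2)) := by
    refine ⟨by linarith, by linarith, ?_, ?_, ?_⟩
    · rw [Real.arsinh_pos_iff]
      positivity
    · have := artanh_eq (x := π / 4) (θ := π / 4) hax hax
      rw [Real.tan_pi_div_four, mul_one, one_mul, Real.cos_pi_div_four] at this
      rw [this]
    · rw [Real.sinh_arsinh, Real.cos_pi_div_four, div_self (by positivity), Real.arctan_one]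
      ring
  set y : ℝ := Real.arsinh (√2 / 2) with hy
  have hy1 : Real.sinh y < 71 / 100 := by
    rw [hy, Real.sinh_arsinh]
    linarith
  have p1 : -2 * J (103 / 100) < W 2 2 (π / 4) y := by
    have h3 := W_ge (n := 2) (b := 2) (x := π / 4) (θ := π / 4) (by norm_num) hax (by ring)
      (by linarith) (by linarith) y
    have h4 := Le_le_log (c := Real.cos (π / 4)) (θ := π / 4) (cos_pos' hax) (by linarith)
      (by linarith)
    rw [Real.tan_pi_div_four, one_pow, one_add_one_eq_two] at h4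
    have h5 := Real.log_two_lt_d9
    have h50 := Real.log_pos (by norm_num : (1:ℝ) < 2)
    have h6 : Real.cos (π / 4) / 2 * Real.log 2 ≤ 1415 / 4000 * (6932 / 10000) := by
      rw [Real.cos_pi_div_four]
      exact mul_le_mul (by linarith) (by linarith) h50.le (by norm_num)
    have h46 := h4.trans h6
    have h7 := J_sub_ge' (a := π / 4) (b := 103 / 100) (by linarith) (by linarith) (by linarith)
    have h8 : π ^ 2 ≤ 98697 / 10000 := by nlinarith
    have h9 : π ^ 4 ≤ 9742 / 100 := by
      have : π ^ 4 = π ^ 2 * π ^ 2 := by ring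
      rw [this]
      nlinarith [sq_nonneg π]
    have h10 : (π / 4) ^ 2 / 2 + (π / 4) ^ 4 / 24 = π ^ 2 / 32 + π ^ 4 / 6144 := by ring
    rw [h10] at h7
    norm_num at h7
    have h11 : J (π / 4) + Le (Real.cos (π / 4)) (π / 4) < J (103 / 100) := by linarith
    linarith
  have hC : Cr ((2 : ℕ) : ℝ) (-((-2 : ℤ) : ℝ)) (π / 4) y := by rw [hb, hn]; exact C
  exact ⟨_, _, _, _, mk' hS (by norm_num) (by norm_num) hC (by linarith)
    (by norm_num : (103:ℝ) / 100 < 33 / 32)
    (lt_of_sinh (by norm_num) hy1 (by norm_num))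
    (G_of (S := 71 / 100) cos_206 (by norm_num) C.y0 hy1.le (by norm_num))
    (by rw [hb, hn]; exact p1)
    (by rw [hb, hn]; exact p2_of_p1' (by norm_num) le_rfl (by norm_num) p1)⟩

lemma arctan_le {s : ℝ} (hs : 0 ≤ s) : Real.arctan s ≤ s := by
  have h1 := Real.le_tan (Real.arctan_nonneg.2 hs) (Real.arctan_lt_pi_div_two s)
  rwa [Real.tan_arctan] at h1

lemma Ps_le {c y : ℝ} (hc : 0 < c) (hy : 0 ≤ y) : Ps c y ≤ (Real.cosh y - 1) / c := by
  refine le_of_deriv (f := Ps c) (f' := fun y => Real.arctan (Real.sinh y / c))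
    (g := fun y => (Real.cosh y - 1) / c) (g' := fun y => Real.sinh y / c) (a := 0)
    (fun t _ => Ps_deriv c t) ?_ (by simp [Ps_zero]) ?_ hy
  · intro t _
    exact ((Real.hasDerivAt_cosh t).sub_const 1).div_const c
  · intro t ht
    exact arctan_le (div_nonneg (Real.sinh_nonneg_iff.2 ht.1.le) hc.le)

theorem case31 (hS : S_SF) : ∃ (z : ℂ) (x₁ x₂ y₁ : ℝ), PathD 3 (-1) z x₁ x₂ y₁ := by
  have hpi := Real.pi_gt_d4
  have hpi2 := Real.pi_lt_d4
  have hb : (-((-1 : ℤ) : ℝ)) = 1 := by norm_num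
  have hn : ((3 : ℕ) : ℝ) = 3 := by norm_num
  set θ : ℝ := (π - 1 * (46 / 100)) / 3 with hθ
  have hθ1 : 8938 / 10000 ≤ θ := by
    rw [hθ]
    linarith
  have hθ2 : θ ≤ 8939 / 10000 := by
    rw [hθ]
    linarith
  have c46 : 896 / 1000 ≤ Real.cos (46 / 100) := le_cos' (by norm_num) (by norm_num)
  have c46' : Real.cos (46 / 100) ≤ 8961 / 10000 := cos_le' (by norm_num) (by norm_num)
  have c9 : 6215 / 10000 ≤ Real.cos (9 / 10) := le_cos' (by norm_num) (by norm_num)
  have c9' : Real.cos (9 / 10) ≤ 63 / 100 := cos_le' (by norm_num) (by norm_num)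
  have cθ : Real.cos θ ≤ 627 / 1000 :=
    (Real.cos_le_cos_of_nonneg_of_le_pi (x := 8938 / 10000) (y := θ) (by norm_num)
      (by linarith) hθ1).trans (cos_le' (by norm_num) (by norm_num))
  have cθ0 : 0 < Real.cos θ := cos_pos' (abs_lt.2 ⟨by linarith, by linarith⟩)
  have tθ : 1244 / 1000 ≤ Real.tan θ := by
    refine le_trans ?_ (tan_mono' (a := 8938 / 10000) (by norm_num) hθ1 (by linarith))
    exact le_tan' (by norm_num) (by norm_num) (by norm_num) (by norm_num)
  have tθ' : Real.tan θ ≤ 1246 / 1000 := by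
    refine (tan_mono' (b := 8939 / 10000) (by linarith) hθ2 (by linarith)).trans ?_
    exact tan_le' (by norm_num) (by norm_num) (by norm_num) (by norm_num)
  have gl : (3:ℝ) * Real.arsinh (Real.tan (46 / 100) * Real.cos ((π - 1 * (46 / 100)) / 3)) <
      1 * Real.arsinh (Real.cos (46 / 100) * Real.tan ((π - 1 * (46 / 100)) / 3)) := by
    rw [← hθ]
    have e1 : Real.tan (46 / 100) ≤ 4956 / 10000 :=
      tan_le' (by norm_num) (by norm_num) (by norm_num) (by norm_num)
    have e0 : 0 ≤ Real.tan (46 / 100) :=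
      Real.tan_nonneg_of_nonneg_of_le_pi_div_two (by norm_num) (by linarith)
    have e2 := (arsinh_le_self (mul_nonneg e0 cθ0.le)).trans
      (mul_le_mul e1 cθ cθ0.le (by norm_num))
    have e3 : 95 / 100 ≤ Real.arsinh (Real.cos (46 / 100) * Real.tan θ) := by
      refine arsinh_ge (by norm_num) (by norm_num) (le_trans ?_
        (mul_le_mul c46 tθ (by norm_num) (by linarith)))
      norm_num
    linarith
  have hη0 : 747 / 1000 ≤ (π - 1 * (9 / 10)) / 3 := by linarith
  have hη1 : (π - 1 * (9 / 10)) / 3 ≤ 75 / 100 := by linarith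
  have tη : Real.tan ((π - 1 * (9 / 10)) / 3) ≤ 94 / 100 :=
    (tan_mono' (by linarith) hη1 (by linarith)).trans
      (tan_le' (by norm_num) (by norm_num) (by norm_num) (by norm_num))
  have tη' : 92 / 100 ≤ Real.tan ((π - 1 * (9 / 10)) / 3) :=
    le_trans (le_tan' (by norm_num) (by norm_num) (by norm_num) (by norm_num))
      (tan_mono' (a := 747 / 1000) (by norm_num) hη0 (by linarith))
  have gr : (1:ℝ) * Real.arsinh (Real.cos (9 / 10) * Real.tan ((π - 1 * (9 / 10)) / 3)) <
      3 * Real.arsinh (Real.tan (9 / 10) * Real.cos ((π - 1 * (9 / 10)) / 3)) := by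
    have c1 : Real.cos (75 / 100) ≤ Real.cos ((π - 1 * (9 / 10)) / 3) :=
      Real.cos_le_cos_of_nonneg_of_le_pi (by linarith) (by linarith) hη1
    have c2 : 73 / 100 ≤ Real.cos (75 / 100) := le_cos' (by norm_num) (by norm_num)
    have a2 : 12 / 10 ≤ Real.tan (9 / 10) :=
      le_tan' (by norm_num) (by norm_num) (by norm_num) (by norm_num)
    have a3 : (1:ℝ) / 2 ≤ Real.arsinh (Real.tan (9 / 10) *
        Real.cos ((π - 1 * (9 / 10)) / 3)) := by
      refine arsinh_ge (by norm_num) (by norm_num) (le_trans ?_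
        (mul_le_mul a2 (c2.trans c1) (by norm_num) (by linarith)))
      norm_num
    have a4 : Real.arsinh (Real.cos (9 / 10) * Real.tan ((π - 1 * (9 / 10)) / 3)) ≤
        63 / 100 * (94 / 100) := by
      refine (arsinh_le_self (mul_nonneg (by linarith) (by linarith))).trans ?_
      exact mul_le_mul c9' tη (by linarith) (by norm_num)
    linarith
  obtain ⟨x, y, C, -, hx, hy, hy'⟩ := exists_crit (n := 3) (b := 1) (l := 46 / 100)
    (r := 9 / 10) (by norm_num) (by norm_num) (by norm_num) (by norm_num) (by linarith)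
    (by rw [← hθ]; linarith) (by linarith) gl gr
  rw [← hθ] at hy
  have hy1 : Real.sinh y < 1117 / 1000 := by
    refine lt_of_lt_of_le hy (le_trans (mul_le_mul c46' tθ' (by linarith) (by norm_num)) ?_)
    norm_num
  have hy2 : 1 / 2 ≤ y := by
    rw [← Real.sinh_le_sinh]
    have h1 : Real.sinh (1 / 2) ≤ 53 / 100 := sinh_le' (by norm_num) (by norm_num) (by norm_num)
    refine h1.trans (le_trans ?_ hy'.le)
    refine le_trans ?_ (mul_le_mul c9 tη' (by norm_num) (by linarith))
    norm_num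
  have p1 : -3 * J 1 < W 3 1 x y := by
    have h1 := W_le_c hS (by norm_num) C (t := 3 / 10)
      (by rw [abs_of_nonneg (by norm_num)]; linarith)
    have h2 := W_ge (n := 3) (b := 1) (x := 3 / 10) (θ := (π - 1 * (3 / 10)) / 3) (by norm_num)
      (by rw [abs_of_nonneg (by norm_num)]; linarith) (by ring) (by linarith) (by linarith) y
    have h3 := Le_le_J (c := Real.cos (3 / 10)) (θ := (π - 1 * (3 / 10)) / 3)
      (Real.cos_le_one _) (by linarith) (by linarith)
    have h4 := J_le_sq (θ := 3 / 10) (by norm_num) (by linarith)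
    have a1 : Real.tan (3 / 10) ≤ 31 / 100 :=
      tan_le' (by norm_num) (by norm_num) (by norm_num) (by norm_num)
    have a0 : 0 ≤ Real.tan (3 / 10) :=
      Real.tan_nonneg_of_nonneg_of_le_pi_div_two (by linarith) (by linarith)
    have h5 : Real.tan (3 / 10) ^ 2 ≤ (31 / 100) ^ 2 := by nlinarith
    have h6 := J_mono (a := (π - 1 * (3 / 10)) / 3) (b := 948 / 1000) (by linarith)
      (by linarith) (by linarith)
    have h8 := J_sub_ge (a := 948 / 1000) (b := 1) (by norm_num) (by norm_num) (by linarith)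
    have h9 := Li_ge (t := 948 / 1000) (by norm_num) (by linarith)
    norm_num at h9 h8 h5 h4 h6 h3 h2
    linarith
  have hJ1 := J_one_le
  have c90 : 0 < Real.cos (9 / 10) := by linarith
  have ch : Real.cosh (1 / 2) ≤ 113 / 100 := cosh_le' (by norm_num) (by norm_num) (by norm_num)
  have hW9 : W 3 1 (9 / 10) (1 / 2) < W 3 1 x y := by
    have h1 := Ps_le (y := 1 / 2) c90 (by norm_num)
    have h2 : (Real.cosh (1 / 2) - 1) / Real.cos (9 / 10) ≤ 21 / 100 := by
      rw [div_le_iff₀ c90]
      linarith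
    have h3 := J_ge (t := 9 / 10) (by norm_num) (by linarith)
    norm_num at h3
    have h4 : W 3 1 (9 / 10) (1 / 2) = 45 / 100 - π / 2 - 3 * J (9 / 10) +
        3 * Ps (Real.cos (9 / 10)) (1 / 2) := by
      unfold W
      ring
    rw [h4]
    linarith
  have hC : Cr ((3 : ℕ) : ℝ) (-((-1 : ℤ) : ℝ)) x y := by rw [hb, hn]; exact C
  refine ⟨_, _, _, _, mk hS (m₁ := 1) (m₂ := 9 / 10) (h := 1 / 2) (by norm_num) (by norm_num) hC hx
    (by norm_num) (by norm_num) (by norm_num) hy2 (lt_of_sinh (by norm_num) hy1 (by norm_num))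
    ?_ (G_of (S := 1117 / 1000) cos_180 (by norm_num) C.y0 hy1.le (by norm_num))
    (by rw [hb, hn]; exact p1)
    (by rw [hb, hn]; exact p2_of_p1' (by norm_num) (by norm_num) le_rfl p1) ?_⟩
  · have h1 := cos_200
    have h2 := cosh_one_le
    have h3 := Real.cosh_pos 1
    rw [show (2:ℝ) * (1 / 2) = 1 by norm_num]
    have h4 := mul_le_mul_of_nonneg_right h1 h3.le
    have h5 : -1 < -(42 / 100) * Real.cosh 1 := by linarith
    exact lt_of_lt_of_le h5 h4
  · intro t h1 h2
    rw [hb, hn]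
    refine lt_of_le_of_lt ?_ hW9
    rcases eq_or_lt_of_le h1 with h3 | h3
    · rw [h3]
    · refine (W_anti hS (by norm_num) (by linarith) h3 (by linarith) ?_).le
      have h4 : Real.artanh (Real.tanh (1 / 6)) ≤
          Real.artanh (Real.sin (9 / 10) / Real.cosh (1 / 2)) := by
        refine Real.artanh_le_artanh (Real.neg_one_lt_tanh _) (quot_mem
          (abs_lt.2 ⟨by linarith, by linarith⟩) _).2 ?_
        have h5 : Real.tanh (1 / 6) ≤ 1 / 5 := by
          rw [Real.tanh_eq_sinh_div_cosh, div_le_iff₀ (Real.cosh_pos _)]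
          have h6 : Real.sinh (1 / 6) ≤ 1 / 5 :=
            sinh_le' (by norm_num) (by norm_num) (by norm_num)
          have h7 := Real.one_le_cosh (1 / 6)
          linarith
        refine h5.trans ?_
        rw [le_div_iff₀ (Real.cosh_pos _)]
        have h6 : 1 / 2 ≤ Real.sin (9 / 10) := le_sin' (by norm_num) (by norm_num)
        linarith
      rw [Real.artanh_tanh] at h4
      linarith

end Pool.Agent.N868.VS
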