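import Pool.Agent.N868.VS.Mk

/-!
# Existence of critical points
-/

set_option autoImplicit false

namespace Pool.Agent.N868.VS

open Finset Filter Topology Metric
open Pool.Agent.W711.HT (bet)
open Pool.Agent.N561
open scoped Real

lemma tan_mono' {a b : ℝ} (h0 : 0 ≤ a) (hab : a ≤ b) (hb : b < π / 2) :
    Real.tan a ≤ Real.tan b := by
  rcases eq_or_lt_of_le hab with h | h
  · rw [h]
  · exact (Real.tan_lt_tan_of_lt_of_lt_pi_div_two (by linarith [Real.pi_pos]) hb h).le

/-- `artanh (sin x / cosh y) = arsinh (tan x cos θ)` on the curve `sinh y = cos x tan θ` -/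
lemma artanh_eq {x θ : ℝ} (hx : |x| < π / 2) (hθ : |θ| < π / 2) :
    Real.artanh (Real.sin x / Real.cosh (Real.arsinh (Real.cos x * Real.tan θ))) =
      Real.arsinh (Real.tan x * Real.cos θ) := by
  have hcx := cos_pos' hx
  have hcθ := cos_pos' hθ
  set y : ℝ := Real.arsinh (Real.cos x * Real.tan θ) with hy
  have hs : Real.sinh y = Real.cos x * Real.tan θ := by rw [hy, Real.sinh_arsinh]
  have hc := Real.cosh_pos y
  have h1 := quot_mem hx y
  refine Real.sinh_injective ?_
  rw [Real.sinh_artanh h1, Real.sinh_arsinh]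
  have h2 : √(1 - (Real.sin x / Real.cosh y) ^ 2) = Real.cos x / (Real.cos θ * Real.cosh y) := by
    rw [Real.sqrt_eq_iff_mul_self_eq ?_ (by positivity)]
    · have h3 := Real.sin_sq_add_cos_sq x
      have h4 := Real.sin_sq_add_cos_sq θ
      have h5 := Real.cosh_sq y
      rw [hs] at h5
      rw [Real.tan_eq_sin_div_cos] at h5
      have h6 : Real.cosh y ^ 2 * Real.cos θ ^ 2 = Real.cos x ^ 2 * Real.sin θ ^ 2 + Real.cos θ ^ 2 := by
        rw [h5]
        field_simp
      field_simp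
      nlinarith
    · have h3 : (Real.sin x / Real.cosh y) ^ 2 < 1 := by
        rw [sq_lt_one_iff_abs_lt_one, abs_lt]
        exact h1
      linarith
  rw [h2, Real.tan_eq_sin_div_cos]
  field_simp

lemma exists_crit {n b l r : ℝ} (hn : 0 < n) (hb : 0 < b) (h0 : 0 ≤ l) (hlr : l < r)
    (hr : r < π / 2) (hl2 : (π - b * l) / n < π / 2) (hr2 : 0 ≤ (π - b * r) / n)
    (gl : n * Real.arsinh (Real.tan l * Real.cos ((π - b * l) / n)) <
      b * Real.arsinh (Real.cos l * Real.tan ((π - b * l) / n)))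
    (gr : b * Real.arsinh (Real.cos r * Real.tan ((π - b * r) / n)) <
      n * Real.arsinh (Real.tan r * Real.cos ((π - b * r) / n))) :
    ∃ x y : ℝ, Cr n b x y ∧ l < x ∧ x < r ∧
      Real.sinh y < Real.cos l * Real.tan ((π - b * l) / n) ∧
      Real.cos r * Real.tan ((π - b * r) / n) < Real.sinh y := by
  have hpi := Real.pi_pos
  -- the angle
  have hanti : ∀ s t : ℝ, s < t → (π - b * t) / n < (π - b * s) / n := fun s t hst => by
    refine div_lt_div_of_pos_right ?_ hn
    nlinarith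
  have hang : ∀ t ∈ Set.Icc l r, 0 ≤ (π - b * t) / n ∧ (π - b * t) / n < π / 2 := by
    intro t ht
    constructor
    · rcases eq_or_lt_of_le ht.2 with h | h
      · rw [h]
        exact hr2
      · exact hr2.trans (hanti t r h).le
    · rcases eq_or_lt_of_le ht.1 with h | h
      · rw [← h]
        exact hl2
      · exact (hanti l t h).trans hl2
  have hcosθ : ∀ t ∈ Set.Icc l r, 0 < Real.cos ((π - b * t) / n) := fun t ht =>
    cos_pos' (abs_lt.2 ⟨by linarith [(hang t ht).1], (hang t ht).2⟩)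
  have hcost : ∀ t ∈ Set.Icc l r, 0 < Real.cos t := fun t ht =>
    cos_pos' (abs_lt.2 ⟨by linarith [ht.1], by linarith [ht.2]⟩)
  set f : ℝ → ℝ := fun t => n * Real.arsinh (Real.tan t * Real.cos ((π - b * t) / n)) -
    b * Real.arsinh (Real.cos t * Real.tan ((π - b * t) / n)) with hf
  have hcont : ContinuousOn f (Set.Icc l r) := by
    have h1 : ContinuousOn (fun t => Real.tan t) (Set.Icc l r) := fun t ht =>
      (Real.continuousAt_tan.2 (hcost t ht).ne').continuousWithinAt
    have h2 : ContinuousOn (fun t => Real.tan ((π - b * t) / n)) (Set.Icc l r) := fun t ht => by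
      refine ContinuousAt.continuousWithinAt ?_
      refine ContinuousAt.comp (f := fun t => (π - b * t) / n)
        (Real.continuousAt_tan.2 (hcosθ t ht).ne') ?_
      fun_prop
    have h3 : ContinuousOn (fun t => Real.cos ((π - b * t) / n)) (Set.Icc l r) := by fun_prop
    exact (continuousOn_const.mul ((h1.mul h3).arsinh)).sub
      (continuousOn_const.mul ((Real.continuous_cos.continuousOn.mul h2).arsinh))
  have h4 := intermediate_value_Ioo hlr.le hcont
  obtain ⟨x, hx, hfx⟩ := h4 (⟨by simp only [hf]; linarith, by simp only [hf]; linarith⟩ :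
    (0:ℝ) ∈ Set.Ioo (f l) (f r))
  have hxI : x ∈ Set.Icc l r := ⟨hx.1.le, hx.2.le⟩
  set θ : ℝ := (π - b * x) / n with hθ
  have hθ0 : 0 < θ := lt_of_le_of_lt hr2 (hanti x r hx.2)
  have hθ1 : θ < π / 2 := (hang x hxI).2
  have hx0 : 0 < x := lt_of_le_of_lt h0 hx.1
  have hax : |x| < π / 2 := abs_lt.2 ⟨by linarith, by linarith [hx.2]⟩
  have haθ : |θ| < π / 2 := abs_lt.2 ⟨by linarith, hθ1⟩
  have htθ : 0 < Real.tan θ := Real.tan_pos_of_pos_of_lt_pi_div_two hθ0 hθ1
  have hcx := cos_pos' hax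
  refine ⟨x, Real.arsinh (Real.cos x * Real.tan θ), ⟨hx0, by linarith [hx.2], ?_, ?_, ?_⟩, hx.1,
    hx.2, ?_, ?_⟩
  · rw [Real.arsinh_pos_iff]
    positivity
  · rw [artanh_eq hax haθ]
    simp only [hf] at hfx
    linarith
  · rw [Real.sinh_arsinh, mul_div_cancel_left₀ _ hcx.ne', Real.arctan_tan (by linarith) hθ1, hθ]
    field_simp
  · rw [Real.sinh_arsinh]
    have h5 : Real.cos x < Real.cos l :=
      Real.cos_lt_cos_of_nonneg_of_le_pi_div_two h0 (by linarith [hx.2]) hx.1
    have h6 : Real.tan θ < Real.tan ((π - b * l) / n) :=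
      Real.tan_lt_tan_of_lt_of_lt_pi_div_two (by linarith) hl2 (hanti l x hx.1)
    nlinarith
  · rw [Real.sinh_arsinh]
    have h5 : Real.cos r < Real.cos x :=
      Real.cos_lt_cos_of_nonneg_of_le_pi_div_two hx0.le (by linarith) hx.2
    have h6 : Real.tan ((π - b * r) / n) < Real.tan θ :=
      Real.tan_lt_tan_of_lt_of_lt_pi_div_two (by linarith) hθ1 (hanti x r hx.2)
    have h7 : 0 ≤ Real.tan ((π - b * r) / n) :=
      Real.tan_nonneg_of_nonneg_of_le_pi_div_two hr2 ((hanti x r hx.2).trans hθ1).le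
    have h8 := cos_pos' (t := r) (abs_lt.2 ⟨by linarith, hr⟩)
    nlinarith

lemma cosh_two (y : ℝ) : Real.cosh (2 * y) = 1 + 2 * Real.sinh y ^ 2 := by
  rw [Real.cosh_two_mul, Real.cosh_sq]
  ring

/-- `y < t` from a bound of `sinh y` -/
lemma lt_of_sinh {y t s : ℝ} (ht : 0 ≤ t) (h1 : Real.sinh y < s) (h2 : s ≤ t + t ^ 3 / 6) :
    y < t := by
  rw [← Real.sinh_lt_sinh]
  exact lt_of_lt_of_le (lt_of_lt_of_le h1 h2) (sinh_ge3 ht)

lemma G_of {m y S c : ℝ} (hc : -c ≤ Real.cos (2 * m)) (c0 : 0 ≤ c) (hy : 0 < y)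
    (hS : Real.sinh y ≤ S) (h : c * (1 + 2 * S ^ 2) < 1) :
    -1 < Real.cos (2 * m) * Real.cosh (2 * y) := by
  rw [cosh_two]
  have h1 : 0 < Real.sinh y := Real.sinh_pos_iff.2 hy
  have h2 : Real.sinh y ^ 2 ≤ S ^ 2 := by nlinarith
  have h3 : 0 < 1 + 2 * Real.sinh y ^ 2 := by positivity
  nlinarith [mul_le_mul_of_nonneg_right hc h3.le, mul_le_mul_of_nonneg_left h2 c0]

lemma cos_206 : -(471 / 1000) ≤ Real.cos (2 * (103 / 100)) := by
  rw [Real.cos_two_mul]
  have h1 := cos_ge6 (x := 103 / 100) (by norm_num)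
  norm_num at h1
  nlinarith

lemma cos_190 : -(333 / 1000) ≤ Real.cos (2 * (19 / 20)) := by
  rw [Real.cos_two_mul]
  have h1 := cos_ge6 (x := 19 / 20) (by norm_num)
  norm_num at h1
  nlinarith

lemma cos_180 : -(23 / 100) ≤ Real.cos (2 * (9 / 10)) := by
  rw [Real.cos_two_mul]
  have h1 := cos_ge6 (x := 9 / 10) (by norm_num)
  norm_num at h1
  nlinarith

lemma cos_200 : -(42 / 100) ≤ Real.cos (2 * 1) := by
  rw [Real.cos_two_mul]
  have h1 := cos_ge6 (x := 1) (by norm_num)
  norm_num at h1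
  nlinarith

end Pool.Agent.N868.VS
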