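import Pool.Agent.N561.A.Stm
import Pool.Agent.N868.VS.Trig

/-!
# The inverse Gudermannian function and its primitive

`int_Li`, `int_Li_le` and the lemmas before them are copied from the starting file
`Pool/Agent/TH596/J367.lean`.
-/

set_option autoImplicit false

namespace Pool.Agent.N868.VS

open Finset Filter Topology Metric
open Pool.Agent.W711.HT (bet)
open scoped Real

/-- `log (2 sin t)` -/
noncomputable def h (t : ℝ) : ℝ := Real.log (2 * Real.sin t)

/-- the inverse Gudermannian -/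
noncomputable def Li (t : ℝ) : ℝ := Real.arsinh (Real.tan t)

/-- the primitive of `Li` -/
noncomputable def J (x : ℝ) : ℝ := ∫ t in (0:ℝ)..x, Li t

lemma h_int (a b : ℝ) : IntervalIntegrable h MeasureTheory.volume a b := by
  have h1 : IntervalIntegrable (fun t => Real.log 2 + Real.log (Real.sin t))
      MeasureTheory.volume a b :=
    intervalIntegrable_const.add (intervalIntegrable_log_sin)
  refine h1.congr_ae ?_
  have h2 : ∀ᵐ t : ℝ ∂(MeasureTheory.volume), Real.sin t ≠ 0 := by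
    have h3 : {t : ℝ | ¬ Real.sin t ≠ 0}.Countable := by
      have h4 : {t : ℝ | ¬ Real.sin t ≠ 0} ⊆ Set.range (fun n : ℤ => (n : ℝ) * π) := by
        intro t ht
        simp only [ne_eq, not_not, Set.mem_ofPred_eq] at ht
        obtain ⟨n, hn⟩ := Real.sin_eq_zero_iff.1 ht
        exact ⟨n, hn⟩
      exact (Set.countable_range _).mono h4
    exact h3.measure_zero _
  filter_upwards [MeasureTheory.ae_restrict_of_ae h2] with t ht
  rw [h, Real.log_mul (by norm_num) ht]

lemma triple {u : ℝ} (h0 : 0 < u) (h1 : u ≤ π / 12) :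
    h (3 * u) = h u + h (π / 3 - u) + h (π / 3 + u) := by
  have hpi := Real.pi_pos
  have s1 : 0 < Real.sin u := Real.sin_pos_of_pos_of_lt_pi h0 (by linarith)
  have s2 : 0 < Real.sin (π / 3 - u) := Real.sin_pos_of_pos_of_lt_pi (by linarith) (by linarith)
  have s3 : 0 < Real.sin (π / 3 + u) := Real.sin_pos_of_pos_of_lt_pi (by linarith) (by linarith)
  unfold h
  rw [← Real.log_mul (by positivity) (by positivity), ← Real.log_mul (by positivity) (by positivity)]
  congr 1
  rw [Real.sin_sub, Real.sin_add, Real.sin_three_mul, Real.sin_pi_div_three, Real.cos_pi_div_three]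
  have h2 := Real.sin_sq_add_cos_sq u
  have h3 : √3 * √3 = 3 := Real.mul_self_sqrt (by norm_num)
  have h4 : Real.cos u ^ 2 = 1 - Real.sin u ^ 2 := by linarith
  have h5 : 2 * Real.sin u * (2 * (√3 / 2 * Real.cos u - 1 / 2 * Real.sin u)) *
      (2 * (√3 / 2 * Real.cos u + 1 / 2 * Real.sin u)) =
      2 * Real.sin u * ((√3 * √3) * Real.cos u ^ 2 - Real.sin u ^ 2) := by ring
  rw [h5, h3, h4]
  ring

lemma lob_id : (∫ t in (π / 4)..(5 * π / 12), h t) - (∫ t in (π / 12)..(π / 4), h t) =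
    -(2 / 3) * ∫ t in (0:ℝ)..(π / 4), h t := by
  have hpi := Real.pi_pos
  have e1 : ∫ u in (0:ℝ)..(π / 12), h (3 * u) = (1 / 3) * ∫ t in (0:ℝ)..(π / 4), h t := by
    rw [intervalIntegral.integral_comp_mul_left h (by norm_num : (3:ℝ) ≠ 0)]
    simp only [mul_zero, smul_eq_mul]
    rw [show 3 * (π / 12) = π / 4 by ring]
    norm_num
  have e2 : ∫ u in (0:ℝ)..(π / 12), h (π / 3 - u) = ∫ t in (π / 4)..(π / 3), h t := by
    rw [intervalIntegral.integral_comp_sub_left h]
    congr 1 <;> ring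
  have e3 : ∫ u in (0:ℝ)..(π / 12), h (π / 3 + u) = ∫ t in (π / 3)..(5 * π / 12), h t := by
    rw [intervalIntegral.integral_comp_add_left h]
    congr 1 <;> ring
  have i2 : IntervalIntegrable (fun u => h (π / 3 - u)) MeasureTheory.volume 0 (π / 12) := by
    have := (h_int (π / 3) (π / 3 - π / 12)).comp_sub_left (π / 3)
    simpa using this
  have i3 : IntervalIntegrable (fun u => h (π / 3 + u)) MeasureTheory.volume 0 (π / 12) := by
    have := (h_int (π / 3) (π / 3 + π / 12)).comp_add_left (π / 3)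
    simpa using this
  have e4 : ∫ u in (0:ℝ)..(π / 12), h (3 * u) = (∫ u in (0:ℝ)..(π / 12), h u) +
      (∫ u in (0:ℝ)..(π / 12), h (π / 3 - u)) + ∫ u in (0:ℝ)..(π / 12), h (π / 3 + u) := by
    rw [← intervalIntegral.integral_add (h_int _ _) i2,
      ← intervalIntegral.integral_add ((h_int _ _).add i2) i3]
    refine intervalIntegral.integral_congr_ae ?_
    filter_upwards with u hu
    rw [Set.uIoc_of_le (by positivity)] at hu
    exact triple hu.1 hu.2
  rw [e1, e2, e3] at e4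
  have a1 := intervalIntegral.integral_add_adjacent_intervals (h_int 0 (π / 12))
    (h_int (π / 12) (π / 4))
  have a2 := intervalIntegral.integral_add_adjacent_intervals (h_int (π / 4) (π / 3))
    (h_int (π / 3) (5 * π / 12))
  linarith

lemma Li_eq {t : ℝ} (h0 : 0 ≤ t) (h1 : t ≤ π / 3) :
    Li t = h (π / 4 + t / 2) - h (π / 4 - t / 2) := by
  have hpi := Real.pi_pos
  have s1 : 0 < Real.sin (π / 4 + t / 2) := Real.sin_pos_of_pos_of_lt_pi (by linarith) (by linarith)
  have s2 : 0 < Real.sin (π / 4 - t / 2) := Real.sin_pos_of_pos_of_lt_pi (by linarith) (by linarith)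
  have c1 : 0 < Real.cos t := Real.cos_pos_of_mem_Ioo ⟨by linarith, by linarith⟩
  have h2 : Real.sqrt (1 + Real.tan t ^ 2) = 1 / Real.cos t := by
    rw [Real.sqrt_eq_iff_mul_self_eq (by positivity) (by positivity), Real.tan_eq_sin_div_cos]
    have := Real.sin_sq_add_cos_sq t
    field_simp
    linarith
  unfold Li h
  rw [Real.arsinh, h2, ← Real.log_div (by positivity) (by positivity)]
  congr 1
  rw [Real.tan_eq_sin_div_cos]
  have h3 : t = 2 * (t / 2) := by ring
  have h4 : Real.sin t = 2 * Real.sin (t / 2) * Real.cos (t / 2) := by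
    conv_lhs => rw [h3]
    exact Real.sin_two_mul _
  have h5 : Real.cos t = Real.cos (t / 2) ^ 2 - Real.sin (t / 2) ^ 2 := by
    conv_lhs => rw [h3]
    exact Real.cos_two_mul' _
  have h6 := Real.sin_sq_add_cos_sq (t / 2)
  rw [← add_div, div_eq_div_iff c1.ne' (by positivity), Real.sin_add, Real.sin_sub,
    Real.sin_pi_div_four, Real.cos_pi_div_four, h4, h5]
  linear_combination (-√2 * (Real.cos (t / 2) - Real.sin (t / 2))) * h6

lemma cos_pos' {t : ℝ} (ht : |t| < π / 2) : 0 < Real.cos t := by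
  rw [abs_lt] at ht
  exact Real.cos_pos_of_mem_Ioo ⟨ht.1, ht.2⟩

lemma sqrt_tan {t : ℝ} (ht : |t| < π / 2) : √(1 + Real.tan t ^ 2) = 1 / Real.cos t := by
  have c1 := cos_pos' ht
  rw [Real.sqrt_eq_iff_mul_self_eq (by positivity) (by positivity), Real.tan_eq_sin_div_cos]
  have := Real.sin_sq_add_cos_sq t
  field_simp
  linarith

lemma Li_log {t : ℝ} (ht : |t| < π / 2) :
    Real.log ((1 + Real.sin t) / Real.cos t) = Li t := by
  unfold Li
  rw [Real.arsinh, sqrt_tan ht, Real.tan_eq_sin_div_cos]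
  congr 1
  ring

lemma Li_deriv {t : ℝ} (ht : |t| < π / 2) : HasDerivAt Li (1 / Real.cos t) t := by
  have c1 := cos_pos' ht
  have d1 : HasDerivAt Li ((√(1 + Real.tan t ^ 2))⁻¹ * (1 / Real.cos t ^ 2)) t :=
    (Real.hasDerivAt_arsinh _).comp t (Real.hasDerivAt_tan c1.ne')
  refine d1.congr_deriv ?_
  rw [sqrt_tan ht]
  field_simp

lemma Li_neg (t : ℝ) : Li (-t) = -Li t := by
  unfold Li
  rw [Real.tan_neg, Real.arsinh_neg]

lemma Li_zero : Li 0 = 0 := by simp [Li]

lemma Li_cont {a b : ℝ} (ha : -(π / 2) < a) (hb : b < π / 2) : ContinuousOn Li (Set.Icc a b) := by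
  have hpi := Real.pi_pos
  refine Real.continuous_arsinh.comp_continuousOn (Real.continuousOn_tan.mono ?_)
  intro t ht
  exact (Real.cos_pos_of_mem_Ioo ⟨by linarith [ht.1], by linarith [ht.2]⟩).ne'

lemma Li_int {a b : ℝ} (ha : |a| < π / 2) (hb : |b| < π / 2) :
    IntervalIntegrable Li MeasureTheory.volume a b := by
  rw [abs_lt] at ha hb
  refine ContinuousOn.intervalIntegrable ?_
  exact Li_cont (a := min a b) (b := max a b) (lt_min ha.1 hb.1) (max_lt ha.2 hb.2)

lemma Li_mono {s t : ℝ} (h0 : -(π / 2) < s) (hst : s ≤ t) (ht : t < π / 2) : Li s ≤ Li t := by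
  have hpi := Real.pi_pos
  refine Real.arsinh_le_arsinh.2 ?_
  rcases eq_or_lt_of_le hst with h | h
  · rw [h]
  · exact (Real.tan_lt_tan_of_lt_of_lt_pi_div_two (by linarith) ht h).le

lemma J_deriv {x : ℝ} (hx : |x| < π / 2) : HasDerivAt J (Li x) x := by
  have hpi := Real.pi_pos
  have h1 : ContinuousAt Li x := (Li_deriv hx).continuousAt
  have h2 : StronglyMeasurableAtFilter Li (𝓝 x) MeasureTheory.volume := by
    have h3 : ContinuousOn Li (Set.Ioo (-(π / 2)) (π / 2)) := fun t ht =>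
      (Li_deriv (abs_lt.2 ht)).continuousAt.continuousWithinAt
    exact h3.stronglyMeasurableAtFilter isOpen_Ioo x (abs_lt.1 hx)
  exact intervalIntegral.integral_hasDerivAt_right (Li_int (by simpa using by linarith) hx) h2 h1

lemma J_neg (x : ℝ) : J (-x) = J x := by
  unfold J
  have h1 := intervalIntegral.integral_comp_neg (f := Li) (a := 0) (b := x)
  rw [neg_zero] at h1
  have h2 : ∫ t in (0:ℝ)..x, Li (-t) = -∫ t in (0:ℝ)..x, Li t := by
    rw [← intervalIntegral.integral_neg]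
    exact intervalIntegral.integral_congr fun t _ => Li_neg t
  rw [intervalIntegral.integral_symm, ← h1, h2, neg_neg]

lemma J_zero : J 0 = 0 := by simp [J]

lemma J_sub {a b : ℝ} (ha : |a| < π / 2) (hb : |b| < π / 2) : J b - J a = ∫ t in a..b, Li t := by
  have hpi := Real.pi_pos
  unfold J
  rw [intervalIntegral.integral_interval_sub_left (Li_int (by simpa using by linarith) hb)
    (Li_int (by simpa using by linarith) ha)]

lemma J_sub_ge {a b : ℝ} (h0 : 0 ≤ a) (hab : a ≤ b) (hb : b < π / 2) :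
    (b - a) * Li a ≤ J b - J a := by
  have ha' : |a| < π / 2 := abs_lt.2 ⟨by linarith [Real.pi_pos], by linarith⟩
  have hb' : |b| < π / 2 := abs_lt.2 ⟨by linarith [Real.pi_pos], by linarith⟩
  rw [J_sub ha' hb']
  have h1 : ∫ t in a..b, Li a ≤ ∫ t in a..b, Li t := by
    refine intervalIntegral.integral_mono_on hab (by simp) (Li_int ha' hb') fun t ht => ?_
    exact Li_mono (by linarith [Real.pi_pos]) ht.1 (by linarith [ht.2])
  rwa [intervalIntegral.integral_const, smul_eq_mul] at h1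

lemma J_sub_le {a b : ℝ} (h0 : 0 ≤ a) (hab : a ≤ b) (hb : b < π / 2) :
    J b - J a ≤ (b - a) * Li b := by
  have ha' : |a| < π / 2 := abs_lt.2 ⟨by linarith [Real.pi_pos], by linarith⟩
  have hb' : |b| < π / 2 := abs_lt.2 ⟨by linarith [Real.pi_pos], by linarith⟩
  rw [J_sub ha' hb']
  have h1 : ∫ t in a..b, Li t ≤ ∫ t in a..b, Li b := by
    refine intervalIntegral.integral_mono_on hab (Li_int ha' hb') (by simp) fun t ht => ?_
    exact Li_mono (by linarith [Real.pi_pos, ht.1]) ht.2 hb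
  rwa [intervalIntegral.integral_const, smul_eq_mul] at h1

lemma Li_ge {t : ℝ} (h0 : 0 ≤ t) (ht : t < π / 2) : t + t ^ 3 / 6 ≤ Li t := by
  have hpi := Real.pi_pos
  refine le_of_deriv (f := fun t => t + t ^ 3 / 6) (f' := fun t => 1 + t ^ 2 / 2) (g' := fun t => 1 / Real.cos t)
    (a := 0) (b := t) ?_ ?_ ?_ ?_ h0
  · intro x _
    have : HasDerivAt (fun t : ℝ => t + t ^ 3 / 6) (1 + (3 * x ^ 2 * 1) / 6) x :=
      (hasDerivAt_id x).add (((hasDerivAt_id x).pow 3).div_const 6)
    exact this.congr_deriv (by ring)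
  · intro x hx
    exact Li_deriv (abs_lt.2 ⟨by linarith [hx.1], by linarith [hx.2]⟩)
  · simp [Li_zero]
  · intro x hx
    have hc := cos_pos' (t := x) (abs_lt.2 ⟨by linarith [hx.1], by linarith [hx.2]⟩)
    rw [le_div_iff₀ hc]
    have h1 : Real.cos x ≤ 1 - x ^ 2 / 2 + x ^ 4 / 24 := cos_le4 hx.1.le
    have h2 : x < 2 := by linarith [hx.2, Real.pi_lt_four]
    have h3 : x ^ 2 < 4 := by nlinarith [hx.1]
    nlinarith [mul_nonneg (sq_nonneg x) (sq_nonneg x), mul_pos hx.1 hx.1,
      mul_le_mul_of_nonneg_left h1 (by positivity : 0 ≤ 1 + x ^ 2 / 2)]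

lemma Li_pos {t : ℝ} (h0 : 0 < t) (ht : t < π / 2) : 0 < Li t := by
  have := Li_ge h0.le ht
  have := pow_pos h0 3
  linarith

lemma J_lt {a b : ℝ} (h0 : 0 < a) (hab : a < b) (hb : b < π / 2) : J a < J b := by
  have h1 := J_sub_ge h0.le hab.le hb
  have h2 := mul_pos (sub_pos.2 hab) (Li_pos h0 (hab.trans hb))
  linarith

lemma J_mono {a b : ℝ} (h0 : 0 ≤ a) (hab : a ≤ b) (hb : b < π / 2) : J a ≤ J b := by
  have h1 := J_sub_ge h0 hab hb
  have h2 : 0 ≤ Li a := by
    have := Li_ge h0 (lt_of_le_of_lt hab hb)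
    have := pow_nonneg h0 3
    linarith
  have h3 := mul_nonneg (sub_nonneg.2 hab) h2
  linarith

lemma J_ge {t : ℝ} (h0 : 0 ≤ t) (ht : t < π / 2) : t ^ 2 / 2 + t ^ 4 / 24 ≤ J t := by
  refine le_of_deriv (f := fun t => t ^ 2 / 2 + t ^ 4 / 24) (f' := fun t => t + t ^ 3 / 6)
    (g' := Li) (a := 0) (b := t) ?_ ?_ ?_ ?_ h0
  · intro x _
    exact ((((hasDerivAt_id x).pow 2).div_const 2).add
      (((hasDerivAt_id x).pow 4).div_const 24)).congr_deriv (by simp; ring)
  · intro x hx
    exact J_deriv (abs_lt.2 ⟨by linarith [hx.1, Real.pi_pos], by linarith [hx.2]⟩)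
  · simp [J_zero]
  · intro x hx
    exact Li_ge hx.1.le (hx.2.trans ht)

/-- `∫_a^b Li` from below -/
lemma J_sub_ge' {a b : ℝ} (h0 : 0 ≤ a) (hab : a ≤ b) (hb : b < π / 2) :
    (b ^ 2 / 2 + b ^ 4 / 24) - (a ^ 2 / 2 + a ^ 4 / 24) ≤ J b - J a := by
  refine le_of_deriv (f := fun t => (t ^ 2 / 2 + t ^ 4 / 24) - (a ^ 2 / 2 + a ^ 4 / 24))
    (f' := fun t => t + t ^ 3 / 6) (g := fun t => J t - J a)
    (g' := Li) (a := a) (b := b) ?_ ?_ ?_ ?_ hab
  · intro x _
    exact (((((hasDerivAt_id x).pow 2).div_const 2).add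
      (((hasDerivAt_id x).pow 4).div_const 24)).sub_const _).congr_deriv (by simp; ring)
  · intro x hx
    exact (J_deriv (abs_lt.2 ⟨by linarith [hx.1, Real.pi_pos], by linarith [hx.2]⟩)).sub_const _
  · simp
  · intro x hx
    exact Li_ge (h0.trans hx.1.le) (hx.2.trans hb)

lemma J_one_le : J 1 ≤ 23 / 40 := by
  have hpi := Real.pi_gt_three
  have h1 : ∀ t : ℝ, 0 ≤ t → t ≤ 1 → Li t ≤ t + 3 / 10 * t ^ 3 := fun t h0 h1 => by
    refine le_of_deriv (g := fun t => t + 3 / 10 * t ^ 3) (g' := fun t => 1 + 9 / 10 * t ^ 2)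
      (f := Li) (f' := fun t => 1 / Real.cos t) (a := 0) ?_ ?_ ?_ ?_ h0
    · intro x hx
      exact Li_deriv (abs_lt.2 ⟨by linarith [hx.1, Real.pi_pos], by linarith [hx.2]⟩)
    · intro x _
      exact ((hasDerivAt_id x).add (((hasDerivAt_id x).pow 3).const_mul _)).congr_deriv
        (by simp; ring)
    · simp [Li_zero]
    · intro x hx
      have hx1 : x < 1 := by linarith [hx.2]
      have hc := cos_pos' (t := x) (abs_lt.2 ⟨by linarith [hx.1], by linarith⟩)
      rw [div_le_iff₀ hc]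
      have h2 := cos_ge6 hx.1.le
      have h3 : x ^ 2 < 1 := by nlinarith [hx.1]
      have h4 : 0 ≤ 1 + 9 / 10 * x ^ 2 := by positivity
      have h5 := mul_le_mul_of_nonneg_left h2 h4
      refine le_trans ?_ h5
      have e : (1 + 9 / 10 * x ^ 2) * (1 - x ^ 2 / 2 + x ^ 4 / 24 - x ^ 6 / 720) - 1 =
        x ^ 2 * ((2 / 5 - (9 / 20 - 1 / 24) * x ^ 2) + x ^ 4 * ((9 / 240 - 1 / 720) -
          9 / 7200 * x ^ 2)) := by ring
      have h6 : 0 ≤ (2 / 5 - (9 / 20 - 1 / 24) * x ^ 2) + x ^ 4 * ((9 / 240 - 1 / 720) -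
          9 / 7200 * x ^ 2) := by nlinarith [sq_nonneg (x ^ 2), sq_nonneg x]
      nlinarith [mul_nonneg (sq_nonneg x) h6]
  have h2 : ∀ t : ℝ, 0 ≤ t → t ≤ 1 → J t ≤ t ^ 2 / 2 + 3 / 40 * t ^ 4 := fun t h0 h1' => by
    refine le_of_deriv (g := fun t => t ^ 2 / 2 + 3 / 40 * t ^ 4)
      (g' := fun t => t + 3 / 10 * t ^ 3) (f := J) (f' := Li) (a := 0) ?_ ?_ ?_ ?_ h0
    · intro x hx
      exact J_deriv (abs_lt.2 ⟨by linarith [hx.1, Real.pi_pos], by linarith [hx.2]⟩)
    · intro x _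
      exact ((((hasDerivAt_id x).pow 2).div_const 2).add
        (((hasDerivAt_id x).pow 4).const_mul _)).congr_deriv (by simp; ring)
    · simp [J_zero]
    · intro x hx
      exact h1 x hx.1.le (by linarith [hx.2])
  have := h2 1 (by norm_num) le_rfl
  norm_num at this
  linarith

lemma J_third : J (π / 3) = π / 3 * bet := by
  have hpi := Real.pi_pos
  have i1 : IntervalIntegrable (fun t => h (π / 4 + t / 2)) MeasureTheory.volume 0 (π / 3) := by
    have h1 := ((h_int (π / 4) (5 * π / 12)).comp_add_left (π / 4)).comp_mul_left (c := 1 / 2)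
    convert h1 using 1
    · funext t
      congr 1
      ring
    · simp
    · field_simp
      ring
  have i2 : IntervalIntegrable (fun t => h (π / 4 - t / 2)) MeasureTheory.volume 0 (π / 3) := by
    have h1 := ((h_int (π / 4) (π / 12)).comp_sub_left (π / 4)).comp_mul_left (c := 1 / 2)
    convert h1 using 1
    · funext t
      congr 1
      ring
    · simp
    · field_simp
      ring
  have e1 : ∫ t in (0:ℝ)..(π / 3), Li t = (∫ t in (0:ℝ)..(π / 3), h (π / 4 + t / 2)) -
      ∫ t in (0:ℝ)..(π / 3), h (π / 4 - t / 2) := by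
    rw [← intervalIntegral.integral_sub i1 i2]
    refine intervalIntegral.integral_congr fun t ht => ?_
    rw [Set.uIcc_of_le (by positivity)] at ht
    exact Li_eq ht.1 ht.2
  have e2 : ∫ t in (0:ℝ)..(π / 3), h (π / 4 + t / 2) = 2 * ∫ t in (π / 4)..(5 * π / 12), h t := by
    rw [intervalIntegral.integral_comp_add_div h (by norm_num : (2:ℝ) ≠ 0), smul_eq_mul]
    congr 2 <;> ring
  have e3 : ∫ t in (0:ℝ)..(π / 3), h (π / 4 - t / 2) = 2 * ∫ t in (π / 12)..(π / 4), h t := by
    rw [intervalIntegral.integral_comp_sub_div h (by norm_num : (2:ℝ) ≠ 0), smul_eq_mul]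
    congr 2 <;> ring
  have e4 : bet = -(4 / π) * ∫ t in (0:ℝ)..(π / 4), h t := rfl
  have e5 := lob_id
  unfold J
  rw [e1, e2, e3, e4]
  have e6 : π / 3 * (-(4 / π) * ∫ t in (0:ℝ)..(π / 4), h t) =
      2 * (-(2 / 3) * ∫ t in (0:ℝ)..(π / 4), h t) := by
    field_simp
    ring
  rw [e6, ← e5]
  ring

lemma J_le_bet {θ : ℝ} (h0 : 0 < θ) (h1 : θ ≤ π / 3) : J θ ≤ θ * bet := by
  have hpi := Real.pi_pos
  set r : ℝ := θ / (π / 3) with hr
  have hr0 : 0 < r := by positivity
  have hr1 : r ≤ 1 := by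
    rw [hr, div_le_one (by positivity)]
    exact h1
  have e1 : ∫ t in (0:ℝ)..θ, Li t = r * ∫ s in (0:ℝ)..(π / 3), Li (r * s) := by
    rw [intervalIntegral.integral_comp_mul_left Li hr0.ne', smul_eq_mul, ← mul_assoc,
      mul_inv_cancel₀ hr0.ne', one_mul, mul_zero]
    congr 1
    rw [hr]
    field_simp
  have hc1 := Li_cont (a := 0) (b := π / 3) (by linarith) (by linarith)
  have e2 : ∫ s in (0:ℝ)..(π / 3), Li (r * s) ≤ ∫ s in (0:ℝ)..(π / 3), Li s := by
    refine intervalIntegral.integral_mono_on (by positivity) ?_ ?_ fun s hs => ?_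
    · refine ContinuousOn.intervalIntegrable ?_
      rw [Set.uIcc_of_le (by positivity)]
      refine hc1.comp (by fun_prop) ?_
      intro s hs
      refine ⟨mul_nonneg hr0.le hs.1, ?_⟩
      calc r * s ≤ 1 * s := mul_le_mul_of_nonneg_right hr1 hs.1
        _ ≤ π / 3 := by linarith [hs.2]
    · refine ContinuousOn.intervalIntegrable ?_
      rw [Set.uIcc_of_le (by positivity)]
      exact hc1
    · refine Li_mono (by linarith [mul_nonneg hr0.le hs.1]) ?_ (by linarith [hs.2])
      calc r * s ≤ 1 * s := mul_le_mul_of_nonneg_right hr1 hs.1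
        _ = s := one_mul s
  unfold J
  rw [e1]
  calc r * ∫ s in (0:ℝ)..(π / 3), Li (r * s) ≤ r * ∫ s in (0:ℝ)..(π / 3), Li s :=
        mul_le_mul_of_nonneg_left e2 hr0.le
    _ = θ * bet := by
      have := J_third
      unfold J at this
      rw [this, hr]
      field_simp

/-- `4 J(19/20) > π bet` -/
lemma J_four : π * bet < 4 * J (19 / 20) := by
  have hpi := Real.pi_gt_three
  have hpi2 := Real.pi_lt_d2
  have h1 := J_third
  have h2 := J_sub_le (a := 19 / 20) (b := π / 3) (by norm_num) (by linarith) (by linarith)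
  have h3 := J_ge (t := 19 / 20) (by norm_num) (by linarith)
  have h4 : Li (π / 3) ≤ 8 / 5 := by
    unfold Li
    rw [← Real.sinh_le_sinh, Real.sinh_arsinh, Real.tan_pi_div_three]
    refine le_trans ?_ (sinh_ge3 (by norm_num))
    rw [Real.sqrt_le_left (by norm_num)]
    norm_num
  have h5 : (π / 3 - 19 / 20) * Li (π / 3) ≤ (π / 3 - 19 / 20) * (8 / 5) :=
    mul_le_mul_of_nonneg_left h4 (by linarith)
  norm_num at h3
  nlinarith

end Pool.Agent.N868.VS
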