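import Pool.Agent.N868.VS.Ivt

/-!
# `S_PATH`: critical points and paths of all small types
-/

set_option autoImplicit false

namespace Pool.Agent.N868.VS

open Finset Filter Topology Metric
open Pool.Agent.W711.HT (bet)
open Pool.Agent.N561
open scoped Real

lemma fin_ineq {b n u v : ℝ} (hb : b < 331 / 100) (hb0 : 0 ≤ b) (hn : 4 ≤ n)
    (hu : u ≤ 6 / 10 * (62 / 100)) (hv : 1 / 2 ≤ v) : b * u < n * v := by
  have h1 : b * u ≤ b * (6 / 10 * (62 / 100)) := mul_le_mul_of_nonneg_left hu hb0
  have h2 : 4 * (1 / 2) ≤ n * v := mul_le_mul hn hv (by norm_num) (by linarith)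
  linarith

/-- valence at least four -/
theorem case_four (hS : S_SF) {n : ℕ} {a : ℤ} (hn : 4 ≤ n) (ha : a < 0) :
    ∃ (z : ℂ) (x₁ x₂ y₁ : ℝ), PathD n a z x₁ x₂ y₁ := by
  have hpi := Real.pi_gt_d4
  have hpi2 := Real.pi_lt_d4
  have hn4 : (4:ℝ) ≤ n := by exact_mod_cast hn
  have hn0 : (0:ℝ) < n := by linarith
  set b : ℝ := -a with hb
  have hb1 : 1 ≤ b := by
    have : (a : ℝ) ≤ -1 := by exact_mod_cast Int.le_sub_one_of_lt ha
    rw [hb]
    linarith
  have hb0 : 0 < b := by linarith
  have hl2 : (π - b * 0) / n < π / 2 := by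
    rw [mul_zero, sub_zero]
    exact div_lt_div_of_pos_left (by linarith) (by norm_num) (by linarith)
  have hpn : π / n ≤ π / 4 := div_le_div_of_nonneg_left (by linarith) (by norm_num) hn4
  have gl : n * Real.arsinh (Real.tan 0 * Real.cos ((π - b * 0) / n)) <
      b * Real.arsinh (Real.cos 0 * Real.tan ((π - b * 0) / n)) := by
    rw [mul_zero, sub_zero, Real.tan_zero, zero_mul, Real.arsinh_zero, mul_zero, Real.cos_zero,
      one_mul]
    have : 0 < Real.arsinh (Real.tan (π / n)) := by
      rw [Real.arsinh_pos_iff]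
      exact Real.tan_pos_of_pos_of_lt_pi_div_two (by positivity) (by linarith)
    positivity
  -- the critical point
  have hex : ∃ x y : ℝ, Cr n b x y ∧ x < 19 / 20 ∧
      Real.sinh y < Real.cos 0 * Real.tan ((π - b * 0) / n) := by
    rcases le_or_gt (π / b) (19 / 20) with h | h
    · obtain ⟨x, y, C, -, h1, h2, -⟩ := exists_crit (r := π / b) hn0 hb0 le_rfl (by positivity)
        (by linarith) hl2 (by rw [mul_div_cancel₀ _ hb0.ne', sub_self, zero_div]) gl (by
          rw [mul_div_cancel₀ _ hb0.ne', sub_self, zero_div, Real.tan_zero, mul_zero,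
            Real.arsinh_zero, mul_zero, Real.cos_zero, mul_one]
          have : 0 < Real.arsinh (Real.tan (π / b)) := by
            rw [Real.arsinh_pos_iff]
            exact Real.tan_pos_of_pos_of_lt_pi_div_two (by positivity) (by linarith)
          positivity)
      exact ⟨x, y, C, by linarith, h2⟩
    · have h19 : b * (19 / 20) < π := by
        rw [lt_div_iff₀ hb0] at h
        linarith
      have hb4 : b < 331 / 100 := by linarith
      have hθ0 : 0 ≤ (π - b * (19 / 20)) / n := div_nonneg (by linarith) hn0.le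
      have hθ1 : (π - b * (19 / 20)) / n ≤ 11 / 20 := by
        rw [div_le_iff₀ hn0]
        nlinarith
      obtain ⟨x, y, C, -, h1, h2, -⟩ := exists_crit (r := 19 / 20) hn0 hb0 le_rfl (by norm_num)
        (by linarith) hl2 hθ0 gl (by
          have c95 : Real.cos (19 / 20) ≤ 6 / 10 := cos_le' (by norm_num) (by norm_num)
          have c95' : 5 / 10 ≤ Real.cos (19 / 20) := le_cos' (by norm_num) (by norm_num)
          have c1 : 8 / 10 ≤ Real.cos ((π - b * (19 / 20)) / n) :=
            (le_cos' (by norm_num) (by norm_num)).trans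
              (Real.cos_le_cos_of_nonneg_of_le_pi hθ0 (by linarith) hθ1)
          have a1 : Real.tan ((π - b * (19 / 20)) / n) ≤ 62 / 100 :=
            (tan_mono' hθ0 hθ1 (by linarith)).trans
              (tan_le' (by norm_num) (by norm_num) (by norm_num) (by norm_num))
          have a0 : 0 ≤ Real.tan ((π - b * (19 / 20)) / n) :=
            Real.tan_nonneg_of_nonneg_of_le_pi_div_two hθ0 (by linarith)
          have a2 : 13 / 10 ≤ Real.tan (19 / 20) :=
            le_tan' (by norm_num) (by norm_num) (by norm_num) (by norm_num)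
          have a3 : (1:ℝ) / 2 ≤ Real.arsinh (Real.tan (19 / 20) *
              Real.cos ((π - b * (19 / 20)) / n)) := by
            refine arsinh_ge (by norm_num) (by norm_num) (le_trans ?_
              (mul_le_mul a2 c1 (by norm_num) (by linarith)))
            norm_num
          have a4 : Real.arsinh (Real.cos (19 / 20) * Real.tan ((π - b * (19 / 20)) / n)) ≤
              6 / 10 * (62 / 100) := by
            refine (arsinh_le_self (mul_nonneg (by linarith) a0)).trans ?_
            exact mul_le_mul c95 a1 a0 (by norm_num)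
          exact fin_ineq hb4 hb0.le hn4 a4 a3)
      exact ⟨x, y, C, h1, h2⟩
  obtain ⟨x, y, C, hx, hy⟩ := hex
  rw [Real.cos_zero, one_mul, mul_zero, sub_zero] at hy
  have hy1 : Real.sinh y < 1 := by
    refine lt_of_lt_of_le hy ?_
    rw [← Real.tan_pi_div_four]
    exact tan_mono' (by positivity) hpn (by linarith)
  have hax := C.ax
  have hx0 := C.x0
  have p2 : -(π * bet) < W n b x y := by
    have h1 := W_line hS hn0 C.ax C.c1 (x := 0) (by rw [abs_zero]; linarith) C.x0.ne
    have h2 := W_ge (n := n) (b := b) (x := 0) (θ := π / n) hn0.le (by rw [abs_zero]; linarith)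
      (by field_simp; ring) (by positivity) (by linarith) y
    rw [J_zero, Real.cos_zero, Le_one, zero_add] at h2
    have h3 := J_le_bet (θ := π / n) (by positivity) (by linarith)
    have h4 : (n : ℝ) * (π / n * bet) = π * bet := by field_simp
    nlinarith
  have p1 : -n * J (19 / 20) < W n b x y := by
    have h1 := J_four
    have h2 : 0 ≤ J (19 / 20) := by
      have := J_ge (t := 19 / 20) (by norm_num) (by linarith)
      norm_num at this
      linarith
    nlinarith
  exact ⟨_, _, _, _, mk' hS (by omega) ha C hx (by norm_num)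
    (lt_of_sinh (by norm_num) hy1 (by norm_num))
    (G_of (S := 1) cos_190 (by norm_num) C.y0 hy1.le (by norm_num)) p1 p2⟩

lemma p2_of_p1 {n : ℕ} {m w : ℝ} (hn : n ≤ 3) (hm : 0 ≤ m) (hm1 : m ≤ 103 / 100)
    (p1 : -n * J m < w) : -(π * bet) < w := by
  have hpi := Real.pi_gt_d4
  have hn3 : (n:ℝ) ≤ 3 := by exact_mod_cast hn
  have h1 := J_mono (a := m) (b := π / 3) hm (by linarith) (by linarith)
  have h2 := J_mono (a := 0) (b := m) le_rfl hm (by linarith)
  rw [J_third] at h1
  rw [J_zero] at h2
  nlinarith

/-- small valence, `b ≥ 3` -/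
theorem case_b (hS : S_SF) {n : ℕ} {a : ℤ} (hn1 : 1 ≤ n) (hn : n ≤ 3) (ha : a ≤ -3) :
    ∃ (z : ℂ) (x₁ x₂ y₁ : ℝ), PathD n a z x₁ x₂ y₁ := by
  have hpi := Real.pi_gt_d4
  have hpi2 := Real.pi_lt_d4
  have hn1' : (1:ℝ) ≤ n := by exact_mod_cast hn1
  have hn3 : (n:ℝ) ≤ 3 := by exact_mod_cast hn
  have hn0 : (0:ℝ) < n := by linarith
  set b : ℝ := -a with hb
  have hb3 : 3 ≤ b := by
    have : (a : ℝ) ≤ -3 := by exact_mod_cast ha
    rw [hb]
    linarith
  have hb34 : b = 3 ∨ 4 ≤ b := by
    rcases eq_or_lt_of_le ha with h | h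
    · left
      rw [hb, h]
      norm_num
    · right
      have : (a : ℝ) ≤ -4 := by exact_mod_cast Int.le_sub_one_of_lt h
      rw [hb]
      linarith
  have hb0 : 0 < b := by linarith
  set l : ℝ := (π - 6 / 10 * n) / b with hl
  have hl0 : 0 < l := div_pos (by linarith) hb0
  have hbl : b * l = π - 6 / 10 * n := mul_div_cancel₀ _ hb0.ne'
  have hθl : (π - b * l) / n = 6 / 10 := by
    rw [hbl]
    field_simp
    ring
  set l₃ : ℝ := (π - 6 / 10 * n) / 3 with hl₃
  have hll₃ : l ≤ l₃ := div_le_div_of_nonneg_left (by linarith) (by norm_num) hb3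
  have hl₃0 : 0 < l₃ := div_pos (by linarith) (by norm_num)
  have hl₃1 : l₃ < 85 / 100 := by
    rw [hl₃, div_lt_iff₀ (by norm_num)]
    linarith
  have tan6 : Real.tan (6 / 10) ≤ 685 / 1000 :=
    tan_le' (by norm_num) (by norm_num) (by norm_num) (by norm_num)
  have tan6' : 68 / 100 ≤ Real.tan (6 / 10) :=
    le_tan' (by norm_num) (by norm_num) (by norm_num) (by norm_num)
  have c6 : Real.cos (6 / 10) ≤ 826 / 1000 := cos_le' (by norm_num) (by norm_num)
  have c6' : 8 / 10 ≤ Real.cos (6 / 10) := le_cos' (by norm_num) (by norm_num)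
  have c60 : 0 < Real.cos (6 / 10) := by linarith
  have hl₃2 : |l₃| < π / 2 := abs_lt.2 ⟨by linarith, by linarith⟩
  -- the inequality for `b = 3`
  have key : (n : ℝ) * Real.arsinh (Real.tan l₃ * Real.cos (6 / 10)) <
      3 * Real.arsinh (Real.cos l₃ * Real.tan (6 / 10)) := by
    have main : ∀ u T C t : ℝ, 0 ≤ u → u < π / 2 → l₃ ≤ u → Real.tan u ≤ T → C ≤ Real.cos u →
        0 ≤ C → 0 ≤ t → t ≤ 1 → t + t ^ 3 / 6 + 31 / 2400 * t ^ 5 ≤ C * (68 / 100) →
        n * (T * (826 / 1000)) < 3 * t → (n : ℝ) * Real.arsinh (Real.tan l₃ * Real.cos (6 / 10)) <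
      3 * Real.arsinh (Real.cos l₃ * Real.tan (6 / 10)) := by
      intro u T C t hu0 hu hlu hT hC hC0 ht0 ht1 ht hfin
      have e0 : 0 ≤ Real.tan l₃ :=
        Real.tan_nonneg_of_nonneg_of_le_pi_div_two hl₃0.le (by linarith)
      have e1 : Real.tan l₃ ≤ T := (tan_mono' hl₃0.le hlu hu).trans hT
      have e2 : C ≤ Real.cos l₃ :=
        hC.trans (Real.cos_le_cos_of_nonneg_of_le_pi hl₃0.le (by linarith) hlu)
      have e3 : Real.arsinh (Real.tan l₃ * Real.cos (6 / 10)) ≤ T * (826 / 1000) :=
        (arsinh_le_self (mul_nonneg e0 c60.le)).trans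
          (mul_le_mul e1 c6 c60.le (e0.trans e1))
      have e4 : t ≤ Real.arsinh (Real.cos l₃ * Real.tan (6 / 10)) := by
        refine arsinh_ge ht0 ht1 (ht.trans ?_)
        exact mul_le_mul e2 tan6' (by norm_num) (hC0.trans e2)
      nlinarith
    interval_cases n
    · exact main (85 / 100) (115 / 100) (65 / 100) (42 / 100) (by norm_num) (by linarith) hl₃1.le
        (tan_le' (by norm_num) (by norm_num) (by norm_num) (by norm_num))
        (le_cos' (by norm_num) (by norm_num)) (by norm_num) (by norm_num) (by norm_num)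
        (by norm_num) (by norm_num)
    · refine main (65 / 100) (77 / 100) (78 / 100) (50 / 100) (by norm_num) (by linarith) ?_
        (tan_le' (by norm_num) (by norm_num) (by norm_num) (by norm_num))
        (le_cos' (by norm_num) (by norm_num)) (by norm_num) (by norm_num) (by norm_num)
        (by norm_num) (by norm_num)
      rw [hl₃]
      push_cast
      linarith
    · refine main (45 / 100) (49 / 100) (89 / 100) (56 / 100) (by norm_num) (by linarith) ?_
        (tan_le' (by norm_num) (by norm_num) (by norm_num) (by norm_num))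
        (le_cos' (by norm_num) (by norm_num)) (by norm_num) (by norm_num) (by norm_num)
        (by norm_num) (by norm_num)
      rw [hl₃]
      push_cast
      linarith
  have hl1 : l < 85 / 100 := by linarith
  have gl : n * Real.arsinh (Real.tan l * Real.cos ((π - b * l) / n)) <
      b * Real.arsinh (Real.cos l * Real.tan ((π - b * l) / n)) := by
    rw [hθl]
    have c61 : 0 < Real.tan (6 / 10) := by linarith
    have e1 : Real.arsinh (Real.tan l * Real.cos (6 / 10)) ≤
        Real.arsinh (Real.tan l₃ * Real.cos (6 / 10)) := by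
      refine Real.arsinh_le_arsinh.2 (mul_le_mul_of_nonneg_right ?_ c60.le)
      exact tan_mono' hl0.le hll₃ (by linarith)
    have e2 : Real.arsinh (Real.cos l₃ * Real.tan (6 / 10)) ≤
        Real.arsinh (Real.cos l * Real.tan (6 / 10)) := by
      refine Real.arsinh_le_arsinh.2 (mul_le_mul_of_nonneg_right ?_ c61.le)
      exact Real.cos_le_cos_of_nonneg_of_le_pi hl0.le (by linarith) hll₃
    have e3 : 0 ≤ Real.arsinh (Real.cos l * Real.tan (6 / 10)) := by
      rw [Real.arsinh_nonneg_iff]
      exact mul_nonneg (cos_pos' (abs_lt.2 ⟨by linarith, by linarith⟩)).le c61.le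
    nlinarith
  have hl2 : (π - b * l) / n < π / 2 := by
    rw [hθl]
    linarith
  have hex : ∃ x y : ℝ, Cr n b x y ∧ x < 103 / 100 ∧
      Real.sinh y < Real.cos l * Real.tan ((π - b * l) / n) := by
    rcases hb34 with h3 | h4
    · have hθ0 : 0 ≤ (π - b * (103 / 100)) / n := div_nonneg (by rw [h3]; linarith) hn0.le
      have hθ1 : (π - b * (103 / 100)) / n ≤ 6 / 100 := by
        rw [div_le_iff₀ hn0, h3]
        nlinarith
      obtain ⟨x, y, C, -, h1, h2, -⟩ := exists_crit (r := 103 / 100) hn0 hb0 hl0.le (by linarith)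
        (by linarith) hl2 hθ0 gl (by
          have c103 : Real.cos (103 / 100) ≤ 6 / 10 := cos_le' (by norm_num) (by norm_num)
          have c103' : 5 / 10 ≤ Real.cos (103 / 100) := le_cos' (by norm_num) (by norm_num)
          have c1 : 99 / 100 ≤ Real.cos ((π - b * (103 / 100)) / n) :=
            (le_cos' (by norm_num) (by norm_num)).trans
              (Real.cos_le_cos_of_nonneg_of_le_pi hθ0 (by linarith) hθ1)
          have a1 : Real.tan ((π - b * (103 / 100)) / n) ≤ 7 / 100 :=
            (tan_mono' hθ0 hθ1 (by linarith)).trans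
              (tan_le' (by norm_num) (by norm_num) (by norm_num) (by norm_num))
          have a0 : 0 ≤ Real.tan ((π - b * (103 / 100)) / n) :=
            Real.tan_nonneg_of_nonneg_of_le_pi_div_two hθ0 (by linarith)
          have a2 : 16 / 10 ≤ Real.tan (103 / 100) :=
            le_tan' (by norm_num) (by norm_num) (by norm_num) (by norm_num)
          have a3 : (1:ℝ) / 2 ≤ Real.arsinh (Real.tan (103 / 100) *
              Real.cos ((π - b * (103 / 100)) / n)) := by
            refine arsinh_ge (by norm_num) (by norm_num) (le_trans ?_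
              (mul_le_mul a2 c1 (by norm_num) (by linarith)))
            norm_num
          have a4 : Real.arsinh (Real.cos (103 / 100) * Real.tan ((π - b * (103 / 100)) / n)) ≤
              6 / 10 * (7 / 100) := by
            refine (arsinh_le_self (mul_nonneg (by linarith) a0)).trans ?_
            exact mul_le_mul c103 a1 a0 (by norm_num)
          have a5 := mul_le_mul_of_nonneg_left a4 hb0.le
          have a6 : 1 * (1 / 2) ≤ n * Real.arsinh (Real.tan (103 / 100) *
              Real.cos ((π - b * (103 / 100)) / n)) :=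
            mul_le_mul hn1' a3 (by norm_num) (by linarith)
          linarith)
      exact ⟨x, y, C, h1, h2⟩
    · have hpb : π / b < 103 / 100 := by
        rw [div_lt_iff₀ hb0]
        linarith
      have hlp : l < π / b := by
        rw [hl]
        exact div_lt_div_of_pos_right (by linarith) hb0
      obtain ⟨x, y, C, -, h1, h2, -⟩ := exists_crit (r := π / b) hn0 hb0 hl0.le hlp
        (by linarith) hl2 (by rw [mul_div_cancel₀ _ hb0.ne', sub_self, zero_div]) gl (by
          rw [mul_div_cancel₀ _ hb0.ne', sub_self, zero_div, Real.tan_zero, mul_zero,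
            Real.arsinh_zero, mul_zero, Real.cos_zero, mul_one]
          have : 0 < Real.arsinh (Real.tan (π / b)) := by
            rw [Real.arsinh_pos_iff]
            exact Real.tan_pos_of_pos_of_lt_pi_div_two (by positivity) (by linarith)
          positivity)
      exact ⟨x, y, C, by linarith, h2⟩
  obtain ⟨x, y, C, hx, hy⟩ := hex
  rw [hθl] at hy
  have hy1 : Real.sinh y < 685 / 1000 := by
    refine lt_of_lt_of_le hy ?_
    have := Real.cos_le_one l
    nlinarith
  have p1 : -n * J (103 / 100) < W n b x y := by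
    have h1 := W_le_c hS hn0 C (t := 1) (by rw [abs_one]; linarith)
    rcases hb34 with h3 | h4
    · have hθ0 : 0 ≤ (π - 3) / n := div_nonneg (by linarith) hn0.le
      have hθ1 : (π - 3) / n ≤ 15 / 100 := by
        rw [div_le_iff₀ hn0]
        nlinarith
      have h2 := W_ge (n := n) (b := b) (x := 1) (θ := (π - 3) / n) hn0.le
        (by rw [abs_one]; linarith) (by rw [h3]; field_simp) hθ0 (by linarith) y
      have h5 := Le_le_sq (c := Real.cos 1) (cos_pos' (by rw [abs_one]; linarith)) hθ0
        (by linarith)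
      have a1 : Real.tan ((π - 3) / n) ≤ 16 / 100 :=
        (tan_mono' hθ0 hθ1 (by linarith)).trans
          (tan_le' (by norm_num) (by norm_num) (by norm_num) (by norm_num))
      have a0 : 0 ≤ Real.tan ((π - 3) / n) :=
        Real.tan_nonneg_of_nonneg_of_le_pi_div_two hθ0 (by linarith)
      have h6 := Real.cos_le_one 1
      have h7 : Real.cos 1 / 2 * Real.tan ((π - 3) / n) ^ 2 ≤ 1 / 2 * (16 / 100) ^ 2 :=
        mul_le_mul (by linarith) (by nlinarith) (by positivity) (by norm_num)
      have h8 := J_sub_ge (a := 1) (b := 103 / 100) (by norm_num) (by norm_num) (by linarith)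
      have h9 := Li_ge (t := 1) (by norm_num) (by linarith)
      norm_num at h9 h7 h8
      have h10 : J 1 + Le (Real.cos 1) ((π - 3) / n) < J (103 / 100) := by linarith
      nlinarith
    · have h2 := W_ge' (n := n) (b := b) (x := 1) hn0.le (by rw [abs_one]; linarith)
        (by linarith) C.y0.le
      have h3 := J_lt (a := 1) (b := 103 / 100) (by norm_num) (by norm_num) (by linarith)
      nlinarith
  exact ⟨_, _, _, _, mk' hS hn1 (by omega) C hx (by norm_num)
    (lt_of_sinh (by norm_num) hy1 (by norm_num))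
    (G_of (S := 685 / 1000) cos_206 (by norm_num) C.y0 hy1.le (by norm_num)) p1
    (p2_of_p1 hn (by norm_num) le_rfl p1)⟩

end Pool.Agent.N868.VS
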