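import Pool.Agent.N868.VS.Sad

/-!
# The path through a critical point
-/

set_option autoImplicit false

namespace Pool.Agent.N868.VS

open Finset Filter Topology Metric
open Pool.Agent.W711.HT (bet)
open Pool.Agent.N561
open scoped Real

/-- the critical point in real coordinates -/
structure Cr (n b x y : ℝ) : Prop where
  x0 : 0 < x
  x1 : x < π / 2
  y0 : 0 < y
  c1 : b * y = n * Real.artanh (Real.sin x / Real.cosh y)
  c2 : n * Real.arctan (Real.sinh y / Real.cos x) = π - b * x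

lemma Cr.ax {n b x y : ℝ} (C : Cr n b x y) : |x| < π / 2 :=
  abs_lt.2 ⟨by linarith [C.x0, Real.pi_pos], C.x1⟩

lemma crit_cx (hS : S_SF) {n : ℕ} {a : ℤ} {x y : ℝ} (C : Cr n (-a) x y) :
    Complex.I * a * (((2 * x : ℝ) : ℂ) + ((2 * y : ℝ) : ℂ) * Complex.I) / (2 * π) + Complex.I -
      n / π * gdi ((((2 * x : ℝ) : ℂ) + ((2 * y : ℝ) : ℂ) * Complex.I) / 2) = 0 := by
  have hpi := Real.pi_pos
  have hp : (π : ℂ) ≠ 0 := by exact_mod_cast hpi.ne'
  have e0 : (((2 * x : ℝ) : ℂ) + ((2 * y : ℝ) : ℂ) * Complex.I) / 2 =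
      (x : ℂ) + (y : ℂ) * Complex.I := by
    push_cast
    ring
  have er : ((x : ℂ) + (y : ℂ) * Complex.I).re = x := by simp
  have ei : ((x : ℂ) + (y : ℂ) * Complex.I).im = y := by simp
  have h1 := hS.1 ((x : ℂ) + (y : ℂ) * Complex.I) (by rw [er]; exact C.ax)
  rw [er, ei] at h1
  rw [e0]
  have h2 : gdi ((x : ℂ) + (y : ℂ) * Complex.I) =
      ((Real.artanh (Real.sin x / Real.cosh y) : ℝ) : ℂ) +
        ((Real.arctan (Real.sinh y / Real.cos x) : ℝ) : ℂ) * Complex.I := by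
    rw [← h1.2.1, ← h1.2.2]
    exact (Complex.re_add_im _).symm
  rw [h2]
  have c1 := C.c1
  have c2 := C.c2
  have d1 : (n : ℂ) * ((Real.artanh (Real.sin x / Real.cosh y) : ℝ) : ℂ) = -a * y := by
    have : ((n * Real.artanh (Real.sin x / Real.cosh y) : ℝ) : ℂ) = ((-a * y : ℝ) : ℂ) := by
      rw [← c1]
    push_cast at this
    exact this
  have d2 : (n : ℂ) * ((Real.arctan (Real.sinh y / Real.cos x) : ℝ) : ℂ) = π + a * x := by
    have : ((n * Real.arctan (Real.sinh y / Real.cos x) : ℝ) : ℂ) = ((π - -a * x : ℝ) : ℂ) := by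
      rw [← c2]
    rw [Complex.ofReal_mul, Complex.ofReal_natCast] at this
    rw [this]
    push_cast
    ring
  have e3 : (n : ℂ) / π * (((Real.artanh (Real.sin x / Real.cosh y) : ℝ) : ℂ) +
        ((Real.arctan (Real.sinh y / Real.cos x) : ℝ) : ℂ) * Complex.I) =
      (n * ((Real.artanh (Real.sin x / Real.cosh y) : ℝ) : ℂ) +
        n * ((Real.arctan (Real.sinh y / Real.cos x) : ℝ) : ℂ) * Complex.I) / π := by ring
  rw [e3, d1, d2]
  push_cast
  field_simp
  ring_nf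
  simp only [Complex.I_sq]
  ring

lemma GG_of {X Y x y : ℝ} (hx : |x| ≤ X) (hX : X < 33 / 16) (h0 : 0 < y) (hy : y ≤ Y)
    (hY : Y < 39 / 20) (hG : -1 < Real.cos X * Real.cosh Y) :
    ((x : ℂ) + (y : ℂ) * Complex.I) ∈ GG := by
  have er : ((x : ℂ) + (y : ℂ) * Complex.I).re = x := by simp
  have ei : ((x : ℂ) + (y : ℂ) * Complex.I).im = y := by simp
  have hpi := Real.pi_gt_three
  refine ⟨by rw [er]; linarith, by rw [ei]; exact h0, by rw [ei]; linarith, ?_⟩
  rw [er, ei]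
  have h1 : Real.cos X ≤ Real.cos x := by
    rw [← Real.cos_abs x]
    exact Real.cos_le_cos_of_nonneg_of_le_pi (abs_nonneg x) (by linarith) hx
  have h2 : Real.cosh y ≤ Real.cosh Y := Real.cosh_le_cosh.2 (by
    rw [abs_of_pos h0, abs_of_pos (by linarith)]
    exact hy)
  have h3 := Real.cosh_pos y
  rcases le_or_gt 0 (Real.cos x) with h | h
  · have := mul_nonneg h h3.le
    linarith
  · nlinarith [Real.cosh_pos Y]

lemma Vr_W' (hS : S_SF) (n : ℕ) (a : ℤ) {x : ℝ} (hx : |x| < π) (y : ℝ) :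
    Vr n a ((x : ℂ) + (y : ℂ) * Complex.I) =
      n * (2 * bet) + 2 / π * W n (-a) (x / 2) (y / 2) := by
  rw [← Vr_W hS n a (x := x / 2) (by rw [abs_div, abs_two]; linarith) (y / 2)]
  rw [show 2 * (x / 2) = x by ring, show 2 * (y / 2) = y by ring]

lemma W_abs {n b x y : ℝ} (hb : 0 ≤ b) (hy : 0 ≤ y) : W n b x y ≤ W n b |x| y := by
  rcases le_total 0 x with h | h
  · rw [abs_of_nonneg h]
  · rw [abs_of_nonpos h, W_neg]
    have := mul_nonneg (mul_nonneg hb hy) (neg_nonneg.2 h)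
    nlinarith

/-- the maximum on the horizontal line through the critical point -/
lemma W_le_c (hS : S_SF) {n b x y : ℝ} (hn : 0 < n) (C : Cr n b x y) {t : ℝ} (ht : |t| < π / 2) :
    W n b t y ≤ W n b x y := by
  rcases eq_or_ne t x with h | h
  · rw [h]
  · exact (W_line hS hn C.ax C.c1 ht h).le

theorem mk (hS : S_SF) {n : ℕ} {a : ℤ} {x y m₁ m₂ h : ℝ} (hn : 1 ≤ n) (ha : a < 0)
    (C : Cr n (-a) x y) (hxm : x < m₂) (hm : m₂ ≤ m₁) (hm1 : m₁ < 33 / 32) (h0 : 0 < h)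
    (hy : h ≤ y) (hy2 : y < 39 / 40) (G1 : -1 < Real.cos (2 * m₁) * Real.cosh (2 * h))
    (G2 : -1 < Real.cos (2 * m₂) * Real.cosh (2 * y)) (p1 : -n * J m₁ < W n (-a) x y)
    (p2 : -(π * bet) < W n (-a) x y)
    (H : ∀ t : ℝ, m₂ ≤ t → t ≤ m₁ → W n (-a) t h < W n (-a) x y) :
    PathD n a (((2 * x : ℝ) : ℂ) + ((2 * y : ℝ) : ℂ) * Complex.I) (2 * m₁) (2 * m₂) (2 * h) := by
  have hpi := Real.pi_gt_three
  have hn0 : (0:ℝ) < n := by exact_mod_cast hn
  have hb : (0:ℝ) < -a := by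
    have : (a : ℝ) < 0 := by exact_mod_cast ha
    linarith
  have hx0 := C.x0
  have er : ((((2 * x : ℝ) : ℂ) + ((2 * y : ℝ) : ℂ) * Complex.I)).re = 2 * x := by simp
  have ei : ((((2 * x : ℝ) : ℂ) + ((2 * y : ℝ) : ℂ) * Complex.I)).im = 2 * y := by simp
  have hV := Vr_W hS n a C.ax y
  have hpp : 0 < 2 / π := by positivity
  -- comparison of `Vr` by `W`
  have key : ∀ X Y : ℝ, |X| < π → W n (-a) (X / 2) (Y / 2) < W n (-a) x y →
      Vr n a ((X : ℂ) + (Y : ℂ) * Complex.I) <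
        Vr n a (((2 * x : ℝ) : ℂ) + ((2 * y : ℝ) : ℂ) * Complex.I) := by
    intro X Y hX hW
    rw [Vr_W' hS n a hX Y, hV]
    have := mul_lt_mul_of_pos_left hW hpp
    linarith
  have s1 : ∀ y' : ℝ, 0 < y' → y' ≤ h → W n (-a) m₁ y' < W n (-a) x y := by
    intro y' h1 h2
    refine lt_of_le_of_lt (W_le_max hn0.le (abs_lt.2 ⟨by linarith, by linarith⟩) h1.le h2) ?_
    rw [max_lt_iff, W_zero]
    exact ⟨p1, H m₁ hm le_rfl⟩
  have s2 : ∀ y' : ℝ, h ≤ y' → y' ≤ y → W n (-a) m₂ y' < W n (-a) x y := by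
    intro y' h1 h2
    refine lt_of_le_of_lt (W_le_max hn0.le (abs_lt.2 ⟨by linarith, by linarith⟩) h1 h2) ?_
    rw [max_lt_iff]
    exact ⟨H m₂ le_rfl hm, W_line hS hn0 C.ax C.c1 (abs_lt.2 ⟨by linarith, by linarith⟩) hxm.ne'⟩
  have neg : ∀ m y' : ℝ, 0 ≤ m → 0 ≤ y' → W n (-a) m y' < W n (-a) x y →
      W n (-a) (-m) y' < W n (-a) x y := by
    intro m y' hm hy' hW
    refine lt_of_le_of_lt (W_abs hb.le hy') ?_
    rwa [abs_neg, abs_of_nonneg hm]
  refine ⟨?_, ?_, crit_cx hS C, ?_, ?_, ?_, ?_, ?_, ?_, ?_, ?_, ?_⟩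
  · refine GG_of (X := 2 * m₂) (Y := 2 * y) ?_ (by linarith) (by linarith [C.y0]) le_rfl
      (by linarith) G2
    rw [abs_of_pos (by linarith)]
    linarith
  · rw [er]
    linarith
  · rw [er, ei]
    exact ⟨by linarith, by linarith, by linarith, by linarith, by linarith⟩
  · intro X Y hX h1 h2
    exact GG_of hX (by linarith) h1 h2 (by linarith) G1
  · intro X Y hX h1 h2
    rw [ei] at h2
    exact GG_of hX (by linarith) (by linarith) h2 (by linarith) G2
  · rw [hV, sx_J (abs_lt.2 ⟨by linarith, by linarith⟩)]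
    have := mul_lt_mul_of_pos_left p1 hpp
    have e : (n : ℝ) * (2 * bet - 2 / π * J m₁) = n * (2 * bet) + 2 / π * (-n * J m₁) := by ring
    rw [e]
    linarith
  · rw [hV]
    have := mul_lt_mul_of_pos_left p2 hpp
    have e : 2 / π * -(π * bet) = -(2 * bet) := by field_simp
    rw [e] at this
    linarith
  · intro Y h1 h2
    have h3 := s1 (Y / 2) (by linarith) (by linarith)
    constructor
    · refine key (2 * m₁) Y (abs_lt.2 ⟨by linarith, by linarith⟩) ?_
      rwa [show 2 * m₁ / 2 = m₁ by ring]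
    · have h4 := key (-(2 * m₁)) Y (abs_lt.2 ⟨by linarith, by linarith⟩) (by
        rw [show -(2 * m₁) / 2 = -m₁ by ring]
        exact neg m₁ _ (by linarith) (by linarith) h3)
      rw [Complex.ofReal_neg] at h4
      exact h4
  · intro X h1 h2
    refine key X (2 * h) (by linarith) ?_
    rw [show 2 * h / 2 = h by ring]
    refine lt_of_le_of_lt (W_abs hb.le h0.le) ?_
    rw [abs_div, abs_two]
    exact H _ (by linarith) (by linarith)
  · intro Y h1 h2
    rw [ei] at h2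
    have h3 := s2 (Y / 2) (by linarith) (by linarith)
    constructor
    · refine key (2 * m₂) Y (abs_lt.2 ⟨by linarith, by linarith⟩) ?_
      rwa [show 2 * m₂ / 2 = m₂ by ring]
    · have h4 := key (-(2 * m₂)) Y (abs_lt.2 ⟨by linarith, by linarith⟩) (by
        rw [show -(2 * m₂) / 2 = -m₂ by ring]
        exact neg m₂ _ (by linarith) (by linarith) h3)
      rw [Complex.ofReal_neg] at h4
      exact h4
  · intro X h1 h2
    rw [er] at h2
    rw [ei]
    refine key X (2 * y) (by linarith) ?_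
    rw [show 2 * y / 2 = y by ring]
    refine W_line hS hn0 C.ax C.c1 ?_ ?_
    · rw [abs_div, abs_two]
      linarith
    · intro h3
      apply h2
      linarith

/-- the simple path -/
theorem mk' (hS : S_SF) {n : ℕ} {a : ℤ} {x y m : ℝ} (hn : 1 ≤ n) (ha : a < 0)
    (C : Cr n (-a) x y) (hxm : x < m) (hm1 : m < 33 / 32) (hy2 : y < 39 / 40)
    (G2 : -1 < Real.cos (2 * m) * Real.cosh (2 * y)) (p1 : -n * J m < W n (-a) x y)
    (p2 : -(π * bet) < W n (-a) x y) :
    PathD n a (((2 * x : ℝ) : ℂ) + ((2 * y : ℝ) : ℂ) * Complex.I) (2 * m) (2 * m) (2 * y) := by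
  have hpi := Real.pi_gt_three
  have hn0 : (0:ℝ) < n := by exact_mod_cast hn
  refine mk hS hn ha C hxm le_rfl hm1 C.y0 le_rfl hy2 G2 G2 p1 p2 ?_
  intro t h1 h2
  have h3 : t = m := le_antisymm h2 h1
  rw [h3]
  have hx0 := C.x0
  exact W_line hS hn0 C.ax C.c1 (abs_lt.2 ⟨by linarith, by linarith⟩) hxm.ne'

end Pool.Agent.N868.VS
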