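import Pool.Agent.N868.VS.W

/-!
# Saddle points of `W`
-/

set_option autoImplicit false

namespace Pool.Agent.N868.VS

open Finset Filter Topology Metric
open Pool.Agent.W711.HT (bet)
open Pool.Agent.N561
open scoped Real

lemma quot_mem {x : ℝ} (hx : |x| < π / 2) (y : ℝ) :
    -1 < Real.sin x / Real.cosh y ∧ Real.sin x / Real.cosh y < 1 := by
  have h1 := Real.one_le_cosh y
  have h2 := cos_pos' hx
  have h3 := Real.sin_sq_add_cos_sq x
  have h4 : |Real.sin x| < 1 := by
    rw [← sq_lt_one_iff_abs_lt_one]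
    nlinarith
  rw [abs_lt] at h4
  have h5 : 0 < Real.cosh y := by linarith
  constructor
  · rw [lt_div_iff₀ h5]
    linarith
  · rw [div_lt_iff₀ h5]
    linarith

lemma quot_lt {x x' : ℝ} (h0 : -(π / 2) < x) (h1 : x < x') (h2 : x' < π / 2) (y : ℝ) :
    Real.artanh (Real.sin x / Real.cosh y) < Real.artanh (Real.sin x' / Real.cosh y) := by
  refine Real.artanh_lt_artanh (quot_mem (abs_lt.2 ⟨h0, by linarith⟩) y).1
    (quot_mem (abs_lt.2 ⟨by linarith, h2⟩) y).2 ?_
  have h5 : 0 < Real.cosh y := Real.cosh_pos y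
  refine div_lt_div_of_pos_right ?_ h5
  exact Real.sin_lt_sin_of_lt_of_le_pi_div_two h0.le h2.le h1

/-- `W` is decreasing in `x` on the right of a zero of the derivative, and so on -/
lemma W_anti (hS : S_SF) {n b x x' y : ℝ} (hn : 0 < n) (h0 : -(π / 2) < x) (h1 : x < x')
    (h2 : x' < π / 2) (hc : b * y ≤ n * Real.artanh (Real.sin x / Real.cosh y)) :
    W n b x' y < W n b x y := by
  have h3 : StrictAntiOn (fun x => W n b x y) (Set.Icc x x') := by
    refine strictAntiOn_of_deriv_neg (convex_Icc _ _) ?_ ?_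
    · intro t ht
      exact (W_dx hS n b (abs_lt.2 ⟨by linarith [ht.1], by linarith [ht.2]⟩)
        y).continuousAt.continuousWithinAt
    · intro t ht
      rw [interior_Icc] at ht
      rw [(W_dx hS n b (abs_lt.2 ⟨by linarith [ht.1], by linarith [ht.2]⟩) y).deriv]
      have := mul_lt_mul_of_pos_left (quot_lt h0 ht.1 (by linarith [ht.2]) y) hn
      linarith
  exact h3 (Set.left_mem_Icc.2 h1.le) (Set.right_mem_Icc.2 h1.le) h1

lemma W_mono (hS : S_SF) {n b x x' y : ℝ} (hn : 0 < n) (h0 : -(π / 2) < x) (h1 : x < x')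
    (h2 : x' < π / 2) (hc : n * Real.artanh (Real.sin x' / Real.cosh y) ≤ b * y) :
    W n b x y < W n b x' y := by
  have h3 : StrictMonoOn (fun x => W n b x y) (Set.Icc x x') := by
    refine strictMonoOn_of_deriv_pos (convex_Icc _ _) ?_ ?_
    · intro t ht
      exact (W_dx hS n b (abs_lt.2 ⟨by linarith [ht.1], by linarith [ht.2]⟩)
        y).continuousAt.continuousWithinAt
    · intro t ht
      rw [interior_Icc] at ht
      rw [(W_dx hS n b (abs_lt.2 ⟨by linarith [ht.1], by linarith [ht.2]⟩) y).deriv]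
      have := mul_lt_mul_of_pos_left (quot_lt (by linarith [ht.1] : -(π / 2) < t) ht.2 h2 y) hn
      linarith
  exact h3 (Set.left_mem_Icc.2 h1.le) (Set.right_mem_Icc.2 h1.le) h1

lemma W_line (hS : S_SF) {n b xc yc : ℝ} (hn : 0 < n) (hx : |xc| < π / 2)
    (hc : b * yc = n * Real.artanh (Real.sin xc / Real.cosh yc)) {x : ℝ} (hx' : |x| < π / 2)
    (hne : x ≠ xc) : W n b x yc < W n b xc yc := by
  rw [abs_lt] at hx hx'
  rcases lt_or_gt_of_ne hne with h | h
  · exact W_mono hS hn hx'.1 h hx.2 hc.ge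
  · exact W_anti hS hn hx.1 h hx'.2 hc.le

lemma W_le_max {n b x y₀ y y₁ : ℝ} (hn : 0 ≤ n) (hx : |x| < π / 2) (h0 : y₀ ≤ y) (h1 : y ≤ y₁) :
    W n b x y ≤ max (W n b x y₀) (W n b x y₁) := by
  have hc := cos_pos' hx
  have h2 : ConvexOn ℝ Set.univ (fun y => W n b x y) := by
    refine MonotoneOn.convexOn_of_deriv convex_univ ?_ ?_ ?_
    · intro t _
      exact (W_dy n b x t).continuousAt.continuousWithinAt
    · intro t _
      exact (W_dy n b x t).differentiableAt.differentiableWithinAt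
    · intro s _ t _ hst
      rw [(W_dy n b x s).deriv, (W_dy n b x t).deriv]
      have h3 : Real.arctan (Real.sinh s / Real.cos x) ≤ Real.arctan (Real.sinh t / Real.cos x) :=
        Real.arctan_mono (div_le_div_of_nonneg_right (Real.sinh_le_sinh.2 hst) hc.le)
      nlinarith
  exact h2.le_max_of_mem_Icc (Set.mem_univ _) (Set.mem_univ _) ⟨h0, h1⟩

/-! ### Legendre transform -/

/-- `∫_0^θ arsinh (c tan u) du` -/
noncomputable def Le (c θ : ℝ) : ℝ := ∫ u in (0:ℝ)..θ, Real.arsinh (c * Real.tan u)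

lemma at_cont (c : ℝ) {θ : ℝ} (h : |θ| < π / 2) :
    ContinuousAt (fun u => Real.arsinh (c * Real.tan u)) θ :=
  (Real.continuous_arsinh.continuousAt).comp
    (continuousAt_const.mul (Real.continuousAt_tan.2 (cos_pos' h).ne'))

lemma at_int (c : ℝ) {a b : ℝ} (ha : |a| < π / 2) (hb : |b| < π / 2) :
    IntervalIntegrable (fun u => Real.arsinh (c * Real.tan u)) MeasureTheory.volume a b := by
  rw [abs_lt] at ha hb
  refine ContinuousOn.intervalIntegrable fun t ht => ?_
  refine (at_cont c ?_).continuousWithinAt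
  rw [Set.mem_uIcc] at ht
  rcases ht with ht | ht
  · exact abs_lt.2 ⟨by linarith [ht.1], by linarith [ht.2]⟩
  · exact abs_lt.2 ⟨by linarith [ht.1], by linarith [ht.2]⟩

lemma Le_deriv (c : ℝ) {θ : ℝ} (h : |θ| < π / 2) :
    HasDerivAt (Le c) (Real.arsinh (c * Real.tan θ)) θ := by
  have hpi := Real.pi_pos
  have h2 : StronglyMeasurableAtFilter (fun u => Real.arsinh (c * Real.tan u)) (𝓝 θ)
      MeasureTheory.volume := by
    have h3 : ContinuousOn (fun u => Real.arsinh (c * Real.tan u)) (Set.Ioo (-(π / 2)) (π / 2)) :=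
      fun t ht => (at_cont c (abs_lt.2 ht)).continuousWithinAt
    exact h3.stronglyMeasurableAtFilter isOpen_Ioo θ (abs_lt.1 h)
  exact intervalIntegral.integral_hasDerivAt_right (at_int c (by simpa using by linarith) h) h2
    (at_cont c h)

lemma Le_zero (c : ℝ) : Le c 0 = 0 := by simp [Le]

lemma Le_one {θ : ℝ} : Le 1 θ = J θ := by
  unfold Le J Li
  simp

lemma leg_aux {c θ : ℝ} (hc : 0 < c) (h0 : 0 ≤ θ) (h1 : θ < π / 2) :
    0 ≤ Ps c (Real.arsinh (c * Real.tan θ)) - θ * Real.arsinh (c * Real.tan θ) + Le c θ := by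
  have hpi := Real.pi_pos
  refine le_of_deriv (f := fun _ => (0:ℝ)) (f' := fun _ => (0:ℝ))
    (g := fun θ => Ps c (Real.arsinh (c * Real.tan θ)) - θ * Real.arsinh (c * Real.tan θ) + Le c θ)
    (g' := fun _ => (0:ℝ)) (a := 0) (b := θ) (fun x _ => hasDerivAt_const x _) ?_ ?_
    (fun _ _ => le_rfl) h0
  · intro x hx
    have hx' : |x| < π / 2 := abs_lt.2 ⟨by linarith [hx.1], by linarith [hx.2]⟩
    have hcos := cos_pos' hx'
    have d1 : HasDerivAt (fun x => Real.arsinh (c * Real.tan x))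
        ((√(1 + (c * Real.tan x) ^ 2))⁻¹ * (c * (1 / Real.cos x ^ 2))) x :=
      (Real.hasDerivAt_arsinh _).comp x ((Real.hasDerivAt_tan hcos.ne').const_mul c)
    have d2 := (Ps_deriv c (Real.arsinh (c * Real.tan x))).comp x d1
    have d3 := (d2.sub ((hasDerivAt_id x).mul d1)).add (Le_deriv c hx')
    refine d3.congr_deriv ?_
    rw [Real.sinh_arsinh, mul_div_cancel_left₀ _ hc.ne', Real.arctan_tan (by linarith [hx.1])
      (by linarith [hx.2])]
    simp
  · simp [Ps_zero, Le_zero]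

lemma leg {c θ : ℝ} (hc : 0 < c) (h0 : 0 ≤ θ) (h1 : θ < π / 2) (y : ℝ) :
    -Le c θ ≤ Ps c y - θ * y := by
  have h2 := leg_aux hc h0 h1
  set y₀ : ℝ := Real.arsinh (c * Real.tan θ) with hy₀
  have h3 : Ps c y₀ - θ * y₀ ≤ Ps c y - θ * y := by
    have hd : ∀ t : ℝ, HasDerivAt (fun t => Ps c t - θ * t)
        (Real.arctan (Real.sinh t / c) - θ) t := fun t => by
      exact ((Ps_deriv c t).sub ((hasDerivAt_id t).const_mul θ)).congr_deriv (by simp)
    rcases le_total y₀ y with h | h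
    · refine le_of_deriv (f := fun _ => Ps c y₀ - θ * y₀) (f' := fun _ => (0:ℝ))
        (g := fun t => Ps c t - θ * t) (g' := fun t => Real.arctan (Real.sinh t / c) - θ)
        (a := y₀) (b := y) (fun x _ => hasDerivAt_const x _) (fun t _ => hd t) le_rfl ?_ h
      intro t ht
      have h4 : Real.tan θ ≤ Real.sinh t / c := by
        rw [le_div_iff₀ hc, mul_comm]
        have := Real.sinh_le_sinh.2 ht.1.le
        rwa [hy₀, Real.sinh_arsinh] at this
      have h5 := Real.arctan_mono h4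
      rw [Real.arctan_tan (by linarith) h1] at h5
      linarith
    · refine le_of_deriv (g := fun _ => Ps c y - θ * y) (g' := fun _ => (0:ℝ))
        (f := fun t => Ps c t - θ * t) (f' := fun t => Real.arctan (Real.sinh t / c) - θ)
        (a := y) (b := y₀) (fun t _ => hd t) (fun x _ => hasDerivAt_const x _) le_rfl ?_ h
      intro t ht
      have h4 : Real.sinh t / c ≤ Real.tan θ := by
        rw [div_le_iff₀ hc, mul_comm]
        have := Real.sinh_le_sinh.2 ht.2.le
        rwa [hy₀, Real.sinh_arsinh] at this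
      have h5 := Real.arctan_mono h4
      rw [Real.arctan_tan (by linarith) h1] at h5
      linarith
  linarith

lemma W_ge {n b x θ : ℝ} (hn : 0 ≤ n) (hx : |x| < π / 2) (hθ : n * θ = π - b * x) (h0 : 0 ≤ θ)
    (h1 : θ < π / 2) (y : ℝ) : -n * (J x + Le (Real.cos x) θ) ≤ W n b x y := by
  have h2 := mul_le_mul_of_nonneg_left (leg (cos_pos' hx) h0 h1 y) hn
  unfold W
  have h3 : b * x * y - π * y = -(n * θ) * y := by
    rw [hθ]
    ring
  rw [h3]
  linarith

lemma W_ge' {n b x : ℝ} (hn : 0 ≤ n) (hx : |x| < π / 2) (hb : π ≤ b * x) {y : ℝ} (hy : 0 ≤ y) :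
    -n * J x ≤ W n b x y := by
  have h2 : 0 ≤ Ps (Real.cos x) y := by
    have := leg (cos_pos' hx) le_rfl (by linarith [Real.pi_pos]) y
    rw [Le_zero] at this
    linarith
  unfold W
  have h3 : 0 ≤ b * x * y - π * y := by
    have := mul_nonneg (sub_nonneg.2 hb) hy
    linarith
  have h4 := mul_nonneg hn h2
  linarith

lemma Le_le_J {c θ : ℝ} (hc1 : c ≤ 1) (h0 : 0 ≤ θ) (h1 : θ < π / 2) :
    Le c θ ≤ J θ := by
  have hpi := Real.pi_pos
  refine le_of_deriv (f := Le c) (f' := fun θ => Real.arsinh (c * Real.tan θ)) (g := J)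
    (g' := Li) (a := 0) (b := θ) ?_ ?_ ?_ ?_ h0
  · intro x hx
    exact Le_deriv c (abs_lt.2 ⟨by linarith [hx.1], by linarith [hx.2]⟩)
  · intro x hx
    exact J_deriv (abs_lt.2 ⟨by linarith [hx.1], by linarith [hx.2]⟩)
  · simp [Le_zero, J_zero]
  · intro x hx
    unfold Li
    refine Real.arsinh_le_arsinh.2 ?_
    have := Real.tan_pos_of_pos_of_lt_pi_div_two hx.1 (by linarith [hx.2])
    nlinarith

lemma Le_le_log {c θ : ℝ} (hc : 0 < c) (h0 : 0 ≤ θ) (h1 : θ < π / 2) :
    Le c θ ≤ c / 2 * Real.log (1 + Real.tan θ ^ 2) := by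
  have hpi := Real.pi_pos
  refine le_of_deriv (f := Le c) (f' := fun θ => Real.arsinh (c * Real.tan θ))
    (g := fun θ => c / 2 * Real.log (1 + Real.tan θ ^ 2))
    (g' := fun θ => c * Real.tan θ) (a := 0) (b := θ) ?_ ?_ ?_ ?_ h0
  · intro x hx
    exact Le_deriv c (abs_lt.2 ⟨by linarith [hx.1], by linarith [hx.2]⟩)
  · intro x hx
    have hx' : |x| < π / 2 := abs_lt.2 ⟨by linarith [hx.1], by linarith [hx.2]⟩
    have hcos := cos_pos' hx'
    have hne : 1 + Real.tan x ^ 2 ≠ 0 := by positivity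
    have d1 := (((Real.hasDerivAt_tan hcos.ne').pow 2).const_add 1).log (by simpa using hne)
    refine (d1.const_mul (c / 2)).congr_deriv ?_
    have h2 : 1 + Real.tan x ^ 2 = 1 / Real.cos x ^ 2 := by
      rw [Real.tan_eq_sin_div_cos]
      have := Real.sin_sq_add_cos_sq x
      field_simp
      linarith
    simp only [Pi.pow_apply, h2]
    field_simp
    ring
  · simp [Le_zero]
  · intro x hx
    exact arsinh_le_self (mul_nonneg hc.le
      (Real.tan_pos_of_pos_of_lt_pi_div_two hx.1 (by linarith [hx.2])).le)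

lemma Le_le_sq {c θ : ℝ} (hc : 0 < c) (h0 : 0 ≤ θ) (h1 : θ < π / 2) :
    Le c θ ≤ c / 2 * Real.tan θ ^ 2 := by
  refine (Le_le_log hc h0 h1).trans ?_
  refine mul_le_mul_of_nonneg_left ?_ (by positivity)
  have := Real.log_le_sub_one_of_pos (by positivity : 0 < 1 + Real.tan θ ^ 2)
  linarith

lemma J_le_sq {θ : ℝ} (h0 : 0 ≤ θ) (h1 : θ < π / 2) : J θ ≤ 1 / 2 * Real.tan θ ^ 2 := by
  rw [← Le_one]
  exact Le_le_sq one_pos h0 h1

end Pool.Agent.N868.VS
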