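import Pool.Agent.N868.VS.J

/-!
# The real part of the potential of a small vertex
-/

set_option autoImplicit false

namespace Pool.Agent.N868.VS

open Finset Filter Topology Metric
open Pool.Agent.W711.HT (bet)
open Pool.Agent.N561
open scoped Real

/-- `∫_0^y arctan (sinh s / c) ds` -/
noncomputable def Ps (c y : ℝ) : ℝ := ∫ s in (0:ℝ)..y, Real.arctan (Real.sinh s / c)

/-- the potential of a vertex of valence `n` and weight `-b`, up to constants -/
noncomputable def W (n b x y : ℝ) : ℝ := b * x * y - π * y - n * J x + n * Ps (Real.cos x) y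

lemma int_cont (c : ℝ) : Continuous fun s : ℝ => Real.arctan (Real.sinh s / c) :=
  Real.continuous_arctan.comp (Real.continuous_sinh.div_const c)

lemma Ps_deriv (c y : ℝ) : HasDerivAt (Ps c) (Real.arctan (Real.sinh y / c)) y :=
  intervalIntegral.integral_hasDerivAt_right ((int_cont c).intervalIntegrable _ _)
    ((int_cont c).stronglyMeasurableAtFilter _ _) (int_cont c).continuousAt

lemma Ps_zero (c : ℝ) : Ps c 0 = 0 := by simp [Ps]

lemma W_neg (n b x y : ℝ) : W n b (-x) y = W n b x y - 2 * b * x * y := by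
  unfold W
  rw [J_neg, Real.cos_neg]
  ring

lemma W_zero (n b x : ℝ) : W n b x 0 = -n * J x := by
  unfold W
  rw [Ps_zero]
  ring

lemma W_dy (n b x y : ℝ) : HasDerivAt (fun y => W n b x y)
    (b * x - π + n * Real.arctan (Real.sinh y / Real.cos x)) y := by
  have h1 := ((((hasDerivAt_id y).const_mul (b * x)).sub ((hasDerivAt_id y).const_mul π)).sub_const
    (n * J x)).add ((Ps_deriv (Real.cos x) y).const_mul n)
  exact h1.congr_deriv (by simp)

lemma sx_J {x : ℝ} (hx : |x| < π / 2) : sx (2 * x) = 2 * bet - 2 / π * J x := by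
  have hpi := Real.pi_pos
  unfold sx J
  rw [show 2 * x / 2 = x by ring]
  congr 2
  refine intervalIntegral.integral_congr fun t ht => ?_
  refine Li_log ?_
  rw [abs_lt] at hx ⊢
  rw [Set.mem_uIcc] at ht
  rcases ht with ht | ht
  · exact ⟨by linarith [ht.1], by linarith [ht.2]⟩
  · exact ⟨by linarith [ht.1], by linarith [ht.2]⟩

lemma sf_re (hS : S_SF) {x : ℝ} (hx : |x| < π / 2) (y : ℝ) :
    (sf (((2 * x : ℝ) : ℂ) + ((2 * y : ℝ) : ℂ) * Complex.I)).re =
      2 * bet + 2 / π * (-J x + Ps (Real.cos x) y) := by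
  have hpi := Real.pi_pos
  have e1 : ((((2 * x : ℝ) : ℂ) + ((2 * y : ℝ) : ℂ) * Complex.I)).re = 2 * x := by simp
  have e2 : ((((2 * x : ℝ) : ℂ) + ((2 * y : ℝ) : ℂ) * Complex.I)).im = 2 * y := by simp
  have h1 := (hS.2.1 (((2 * x : ℝ) : ℂ) + ((2 * y : ℝ) : ℂ) * Complex.I) (by
    rw [e1, abs_mul, abs_two]
    linarith)).2.2
  rw [e1, e2] at h1
  rw [h1]
  have e3 : sx (2 * x) = 2 * bet - 2 / π * J x := sx_J hx
  have e4 : ∫ s in (0:ℝ)..(2 * y), Real.arctan (Real.sinh (s / 2) / Real.cos (2 * x / 2)) =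
      2 * Ps (Real.cos x) y := by
    unfold Ps
    rw [show 2 * x / 2 = x by ring]
    have := intervalIntegral.integral_comp_div (a := 0) (b := 2 * y)
      (fun s => Real.arctan (Real.sinh s / Real.cos x)) (two_ne_zero : (2:ℝ) ≠ 0)
    rw [this, zero_div, smul_eq_mul, show 2 * y / 2 = y by ring]
  rw [e3, e4]
  ring

lemma Vr_W (hS : S_SF) (n : ℕ) (a : ℤ) {x : ℝ} (hx : |x| < π / 2) (y : ℝ) :
    Vr n a (((2 * x : ℝ) : ℂ) + ((2 * y : ℝ) : ℂ) * Complex.I) =
      n * (2 * bet) + 2 / π * W n (-a) x y := by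
  have hpi := Real.pi_pos
  unfold Vr
  have e1 : (Complex.I * a * (((2 * x : ℝ) : ℂ) + ((2 * y : ℝ) : ℂ) * Complex.I) ^ 2 / (4 * π) +
      Complex.I * (((2 * x : ℝ) : ℂ) + ((2 * y : ℝ) : ℂ) * Complex.I)) =
      ((-(2 * a * x * y / π) - 2 * y : ℝ) : ℂ) +
        ((a * (x ^ 2 - y ^ 2) / π + 2 * x : ℝ) : ℂ) * Complex.I := by
    have hp : (π : ℂ) ≠ 0 := by exact_mod_cast hpi.ne'
    push_cast
    field_simp
    ring_nf
    simp only [Complex.I_sq, show Complex.I ^ 3 = -Complex.I by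
      rw [pow_succ, Complex.I_sq]; ring]
    ring
  rw [Complex.add_re, e1]
  have e2 : ((n : ℂ) * sf (((2 * x : ℝ) : ℂ) + ((2 * y : ℝ) : ℂ) * Complex.I)).re =
      n * (sf (((2 * x : ℝ) : ℂ) + ((2 * y : ℝ) : ℂ) * Complex.I)).re := by
    rw [show (n : ℂ) = ((n : ℝ) : ℂ) by simp, Complex.re_ofReal_mul]
  rw [e2, sf_re hS hx]
  have e3 : (((-(2 * a * x * y / π) - 2 * y : ℝ) : ℂ) +
        ((a * (x ^ 2 - y ^ 2) / π + 2 * x : ℝ) : ℂ) * Complex.I).re =
      -(2 * a * x * y / π) - 2 * y := by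
    simp only [Complex.add_re, Complex.ofReal_re, Complex.re_ofReal_mul, Complex.I_re, mul_zero,
      add_zero]
  rw [e3]
  unfold W
  field_simp
  ring

lemma W_dx (hS : S_SF) (n b : ℝ) {x : ℝ} (hx : |x| < π / 2) (y : ℝ) :
    HasDerivAt (fun x => W n b x y)
      (b * y - n * Real.artanh (Real.sin x / Real.cosh y)) x := by
  have hpi := Real.pi_pos
  set e : ℂ → ℂ := fun z => sf (2 * z + ((2 * y : ℝ) : ℂ) * Complex.I) with he
  have e1 : (2 * (x : ℂ) + ((2 * y : ℝ) : ℂ) * Complex.I).re = 2 * x := by simp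
  have e2 : (2 * (x : ℂ) + ((2 * y : ℝ) : ℂ) * Complex.I).im = 2 * y := by simp
  have h0 := (hS.2.1 (2 * (x : ℂ) + ((2 * y : ℝ) : ℂ) * Complex.I) (by
    rw [e1, abs_mul, abs_two]
    linarith)).1
  have h1 : HasDerivAt (fun z : ℂ => 2 * z + ((2 * y : ℝ) : ℂ) * Complex.I) 2 (x : ℂ) := by
    simpa using ((hasDerivAt_id (x : ℂ)).const_mul 2).add_const (((2 * y : ℝ) : ℂ) * Complex.I)
  have h2 : HasDerivAt e (-(1 / π) * gdi ((2 * (x : ℂ) + ((2 * y : ℝ) : ℂ) * Complex.I) / 2) * 2)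
      (x : ℂ) := HasDerivAt.comp (h₂ := sf) (x : ℂ) h0 h1
  have h3 := h2.real_of_complex
  have hg := (hS.1 ((2 * (x : ℂ) + ((2 * y : ℝ) : ℂ) * Complex.I) / 2) (by
    rw [Complex.div_ofNat_re, e1]
    rw [show 2 * x / 2 = x by ring]
    exact hx)).2.1
  have e3 : (-(1 / π) * gdi ((2 * (x : ℂ) + ((2 * y : ℝ) : ℂ) * Complex.I) / 2) * 2 : ℂ).re =
      -(2 / π) * Real.artanh (Real.sin x / Real.cosh y) := by
    have e4 : (-(1 / π) * gdi ((2 * (x : ℂ) + ((2 * y : ℝ) : ℂ) * Complex.I) / 2) * 2 : ℂ) =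
      ((-(2 / π) : ℝ) : ℂ) * gdi ((2 * (x : ℂ) + ((2 * y : ℝ) : ℂ) * Complex.I) / 2) := by
      push_cast
      ring
    rw [e4, Complex.re_ofReal_mul, hg, Complex.div_ofNat_re, Complex.div_ofNat_im, e1, e2,
      show 2 * x / 2 = x by ring, show 2 * y / 2 = y by ring]
  rw [e3] at h3
  have h4 : (fun x => W n b x y) =ᶠ[𝓝 x] fun x => b * x * y - π * y +
      n * (π / 2 * ((e x).re - 2 * bet)) := by
    have h5 : ∀ᶠ t in 𝓝 x, |t| < π / 2 :=
      (continuous_abs.continuousAt).eventually_lt continuousAt_const hx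
    filter_upwards [h5] with t ht
    have h6 := sf_re hS ht y
    have h7 : (e t).re = 2 * bet + 2 / π * (-J t + Ps (Real.cos t) y) := by
      rw [he]
      simp only
      rw [← h6]
      push_cast
      rfl
    rw [h7]
    unfold W
    field_simp
    ring
  have h8 := ((((hasDerivAt_id x).const_mul b).mul_const y).sub_const (π * y)).add
    (((h3.sub_const (2 * bet)).const_mul (π / 2)).const_mul n)
  refine (h8.congr_of_eventuallyEq h4).congr_deriv ?_
  simp only [mul_one]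
  field_simp
  ring

end Pool.Agent.N868.VS
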